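import Pool.Agent.Lib.MP_1a91b9_ntT.S3.Val

/-!
# Stream S3, file Third: `E1 (1/3) / Om` is a unit at `2`
-/

set_option autoImplicit false

namespace Pool.Agent.Lib.MP_1a91b9_ntT.S3

open Complex

noncomputable section

theorem third_notMem : (1 / 3 : ℂ) ∉ PP.lattice := by
  have := third_notMem_aux (a := 1) (b := 0) (by norm_num)
  simpa using this

theorem two_third_notMem : 2 * (1 / 3 : ℂ) ∉ PP.lattice := by
  have := third_notMem_aux (a := 2) (b := 0) (by norm_num)
  have e : ((2 : ℤ) + (0 : ℤ) * zt) / 3 = 2 * (1 / 3 : ℂ) := by push_cast; ring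
  rwa [e] at this

theorem two_third : 2 * (1 / 3 : ℂ) = -(1 / 3) + 1 := by norm_num

theorem X_third_ne_zero : X (1 / 3) ≠ 0 := div_ne_zero P_third_ne_zero (pow_ne_zero 2 Om_ne_zero)

theorem X_third_cube : X (1 / 3) ^ 3 = -1 := by
  have h := X_two_mul two_third_notMem
  have h2 : X (2 * (1 / 3)) = X (1 / 3) := by
    rw [two_third, X_add one_mem, X, X, PP.weierstrassP_neg]
  rw [h2] at h
  apply mul_left_cancel₀ X_third_ne_zero
  linear_combination h / 3

theorem E1_third_mul_Y : E1 (1 / 3) / Om * Y (1 / 3) = - X (1 / 3) ^ 2 := by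
  have h := slope_eq two_third_notMem
  have h2 : E1 (2 * (1 / 3)) = - E1 (1 / 3) := by
    rw [two_third, E1_add one_mem, E1_neg]
  rw [h2] at h
  linear_combination -h / 3

variable {A : ValuationSubring ℂ}

theorem v_E1_third (hA : (2 : ℂ)⁻¹ ∉ A) : A.valuation (E1 (1 / 3) / Om) = 1 := by
  have hX : A.valuation (X (1 / 3)) = 1 := by
    have h1 := congrArg A.valuation X_third_cube
    rw [map_pow, Valuation.map_neg, map_one] at h1
    rcases lt_trichotomy (A.valuation (X (1 / 3))) 1 with h | h | h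
    · have h4 : A.valuation (X (1 / 3)) ^ 3 < 1 := by
        rw [pow_succ, mul_comm]
        exact mul_lt_one_of_lt_of_le h (pow_le_one' h.le 2)
      rw [h1] at h4
      exact absurd h4 (lt_irrefl _)
    · exact h
    · have h4 : 1 < A.valuation (X (1 / 3)) ^ 3 := one_lt_pow₀ h (by norm_num)
      rw [h1] at h4
      exact absurd h4 (lt_irrefl _)
  have hY := v_Y hA third_notMem ((A.valuation_le_one_iff _).1 hX.le)
  have h2 := congrArg A.valuation E1_third_mul_Y
  rw [map_mul, hY, mul_one, Valuation.map_neg, map_pow, hX, one_pow] at h2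
  exact h2

theorem E1_third_ne_zero : E1 (1 / 3) ≠ 0 := by
  intro h
  have h2 := E1_third_mul_Y
  rw [h, zero_div, zero_mul] at h2
  exact pow_ne_zero 2 X_third_ne_zero (by linear_combination h2)

/-- `E1 (1/3) / Om` is a unit at `2`. -/
theorem E1_third_unit (hA : (2 : ℂ)⁻¹ ∉ A) :
    E1 (1 / 3) / Om ∈ A ∧ (E1 (1 / 3) / Om)⁻¹ ∈ A := by
  have h := v_E1_third hA
  constructor
  · exact (A.valuation_le_one_iff _).1 h.le
  · rw [← A.valuation_le_one_iff, map_inv₀, h, inv_one]

end

end Pool.Agent.Lib.MP_1a91b9_ntT.S3
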