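import Pool.Agent.Lib.MP_1a91b9_ntT.S3.Diff
import Pool.Agent.Lib.MP_1a91b9_ntT.S3.Third
import Pool.Agent.Lib.MP_1a91b9_ntT.S3.Dist

/-!
# Stream S3, file Ring: the lattice of S3 is the image of `𝓞 K`
-/

set_option autoImplicit false

namespace Pool.Agent.Lib.MP_1a91b9_ntT.S3

open Complex NumberField

noncomputable section

theorem om_quad : om ^ 2 + om + 1 = 0 := by
  have h1 : (om - 1) * (om ^ 2 + om + 1) = 0 := by linear_combination om_spec.pow_eq_one
  exact (mul_eq_zero.1 h1).resolve_left (sub_ne_zero.2 (om_spec.ne_one (by norm_num)))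

/-- The elements `m + n om`. -/
def Zom : Subalgebra ℤ K where
  carrier := {x | ∃ m n : ℤ, x = m + n * om}
  mul_mem' := by
    rintro _ _ ⟨a, b, rfl⟩ ⟨c, d, rfl⟩
    refine ⟨a * c - b * d, a * d + b * c - b * d, ?_⟩
    push_cast
    linear_combination (b : K) * d * om_quad
  add_mem' := by
    rintro _ _ ⟨a, b, rfl⟩ ⟨c, d, rfl⟩
    refine ⟨a + c, b + d, ?_⟩
    push_cast
    ring
  algebraMap_mem' := by
    intro n
    exact ⟨n, 0, by simp⟩

theorem exists_coords (a : 𝓞 K) : ∃ m n : ℤ, (a : K) = m + n * om := by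
  have : Fact (Nat.Prime 3) := ⟨by norm_num⟩
  have h := IsCyclotomicExtension.Rat.isIntegralClosure_adjoin_singleton_of_prime om_spec
  have h1 : IsIntegral ℤ (a : K) := a.2
  obtain ⟨y, hy⟩ := h.isIntegral_iff.1 h1
  have h2 : (y : K) ∈ Zom := by
    have h3 : Algebra.adjoin ℤ ({om} : Set K) ≤ Zom := by
      rw [Algebra.adjoin_le_iff]
      rintro _ rfl
      exact ⟨0, 1, by simp⟩
    exact h3 y.2
  have h4 : (y : K) = a := hy
  rw [h4] at h2
  exact h2

theorem om_integral : IsIntegral ℤ om := om_spec.isIntegral (by norm_num)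

/-- `om` as an element of `𝓞 K`. -/
def omO : 𝓞 K := ⟨om, om_integral⟩

theorem coe_omO : (omO : K) = om := rfl

theorem mem_PP_iff {x : ℂ} : x ∈ PP.lattice ↔ ∃ a : 𝓞 K, embK (a : K) = x := by
  rw [mem_PP]
  constructor
  · rintro ⟨m, n, rfl⟩
    refine ⟨(m : 𝓞 K) + n * omO, ?_⟩
    have e : (((m : 𝓞 K) + n * omO : 𝓞 K) : K) = (m : K) + n * om := by
      change algebraMap (𝓞 K) K ((m : 𝓞 K) + n * omO) = _
      rw [map_add, map_mul, map_intCast, map_intCast]
      rfl
    rw [e, map_add, map_mul, map_intCast, map_intCast, embK_om]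
  · rintro ⟨a, rfl⟩
    obtain ⟨m, n, h⟩ := exists_coords a
    refine ⟨m, n, ?_⟩
    rw [h, map_add, map_mul, map_intCast, map_intCast, embK_om]

theorem embK_mem (a : 𝓞 K) : embK (a : K) ∈ PP.lattice := mem_PP_iff.2 ⟨a, rfl⟩

/-- The bijection between `𝓞 K` and the lattice. -/
def latE : 𝓞 K ≃ PP.lattice :=
  Equiv.ofBijective (fun a => ⟨embK (a : K), embK_mem a⟩) (by
    constructor
    · intro a b h
      have h1 : embK (a : K) = embK (b : K) := congrArg Subtype.val h
      have h2 : (a : K) = b := embK.toRingHom.injective h1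
      exact RingOfIntegers.ext h2
    · rintro ⟨x, hx⟩
      obtain ⟨a, ha⟩ := mem_PP_iff.1 hx
      exact ⟨a, Subtype.ext ha⟩)

theorem latE_coe (a : 𝓞 K) : ((latE a : PP.lattice) : ℂ) = embK (a : K) := rfl

end

end Pool.Agent.Lib.MP_1a91b9_ntT.S3
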