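import Pool.Agent.Lib.MP_1a91b9_ntT.S3.Card

/-!
# Stream S3, file Main: the interface of S3

* `s3_Om`, `s3_period`, `s3_neg`, `s3_zero`, `s3_dist`, `s3_mem`, `s3_unit`, `s3_exists`: the
  interface fixed by the project leader;
* `E1_period`, `E1_odd`, `E1_int`, `E1_om`: the function `E1` and `𝓞 K`;
* 3.3 : `hasSum_dif3_inv_O`, `summable_dif3_O`, `integral_tsum_dif3_O`, `integral_kerG'`,
  `s3_hasSum`, `s3_summable`, `s3_integral`;
* 3.6 : `E1_dist`, `E1_dist_O`;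
* 3.8 : `E1_mem`, `E1_mem_O`;
* 3.9 : `E1_third_mem`, `E1_third_inv_mem`, `E1_third_ne_zero`;
* 3.10 : `exists_valuationSubring`, `mem_of_isIntegral`, `inv_odd_mem`.
-/

set_option autoImplicit false

namespace Pool.Agent.Lib.MP_1a91b9_ntT

open Complex NumberField MeasureTheory Set

noncomputable section

/-! ## The function `E1` -/

theorem E1_period (a : 𝓞 K) (z : ℂ) : E1 (z + embK (a : K)) = E1 z := S3.E1_add (S3.embK_mem a) z

theorem E1_odd (z : ℂ) : E1 (-z) = - E1 z := S3.E1_neg z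

theorem E1_int (a : 𝓞 K) : E1 (embK (a : K)) = 0 := S3.E1_coe (S3.embK_mem a)

theorem E1_om (z : ℂ) : E1 (zt * z) = zt ^ 2 * E1 z := S3.E1_zt z

/-! ## 3.3 -/

theorem integral_kerG' (w : ℂ) : ∫ t in Ioi (0 : ℝ), kerG t w = w⁻¹ := S3.integral_kerG w

theorem integrable_kerG' (w : ℂ) : IntegrableOn (fun t => kerG t w) (Ioi (0 : ℝ)) :=
  S3.integrable_kerG w

theorem hasSum_dif2_inv_O {c : ℂ} (hc : c ≠ 0) (s r w : ℂ) :
    HasSum (fun a : 𝓞 K => Df s (Df r (fun x => x⁻¹)) (w + c * embK (a : K)))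
      (Df s (Df r (fun x => c⁻¹ * E1 (x / c))) w) :=
  S3.latE.hasSum_iff.2 (S3.hasSum_dif_dif_inv hc s r w)

theorem hasSum_dif3_inv_O {c : ℂ} (hc : c ≠ 0) (q s r w : ℂ) :
    HasSum (fun a : 𝓞 K => Df q (Df s (Df r (fun x => x⁻¹))) (w + c * embK (a : K)))
      (Df q (Df s (Df r (fun x => c⁻¹ * E1 (x / c)))) w) :=
  S3.latE.hasSum_iff.2 (S3.hasSum_dif3_inv hc q s r w)

theorem summable_dif2_O {c : ℂ} (hc : c ≠ 0) (s r w : ℂ) :
    Summable (fun a : 𝓞 K =>
      ∫ t in Ioi (0 : ℝ), ‖Df s (Df r (kerG t)) (w + c * embK (a : K))‖) :=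
  S3.latE.summable_iff.2 (S3.summable_dif_dif hc s r w)

theorem summable_dif3_O {c : ℂ} (hc : c ≠ 0) (q s r w : ℂ) :
    Summable (fun a : 𝓞 K =>
      ∫ t in Ioi (0 : ℝ), ‖Df q (Df s (Df r (kerG t))) (w + c * embK (a : K))‖) :=
  S3.latE.summable_iff.2 (S3.summable_dif3 hc q s r w)

theorem integral_dif3_kerG (q s r w : ℂ) :
    ∫ t in Ioi (0 : ℝ), Df q (Df s (Df r (kerG t))) w =
      Df q (Df s (Df r (fun x => x⁻¹))) w := S3.integral_dif3 q s r w

theorem integral_tsum_dif3_O {c : ℂ} (hc : c ≠ 0) (q s r w : ℂ) :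
    ∫ t in Ioi (0 : ℝ), ∑' a : 𝓞 K, Df q (Df s (Df r (kerG t))) (w + c * embK (a : K)) =
      Df q (Df s (Df r (fun x => c⁻¹ * E1 (x / c)))) w := by
  rw [← S3.integral_tsum_dif3 hc q s r w]
  congr 1
  funext t
  exact S3.latE.tsum_eq (fun l : PP.lattice => Df q (Df s (Df r (kerG t))) (w + c * (l : ℂ)))

/-! ## 3.6 -/

/-- The distribution relation, for a system `τ` of representatives of `α⁻¹ ℤ[zt] / ℤ[zt]`. -/
theorem E1_dist {ι : Type*} [Fintype ι] {α : ℂ} {τ : ι → ℂ} (hα : α ∈ PP.lattice) (hα0 : α ≠ 0)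
    (h1 : ∀ i, α * τ i ∈ PP.lattice)
    (h2 : ∀ x, α * x ∈ PP.lattice → ∃! i, x - τ i ∈ PP.lattice) (z : ℂ) :
    ∑ i, E1 (z + τ i) = α * E1 (α * z) := S3.dist hα hα0 h1 h2 z

/-- The distribution relation, for a system `ρ` of representatives of `𝓞 K / a`. -/
theorem E1_dist_O {ι : Type*} [Fintype ι] {a : 𝓞 K} {ρ : ι → 𝓞 K} (ha : a ≠ 0)
    (h : ∀ x : 𝓞 K, ∃! i, a ∣ x - ρ i) (z : ℂ) :
    ∑ i, E1 (z + embK (ρ i : K) / embK (a : K)) = embK (a : K) * E1 (embK (a : K) * z) := by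
  have ha0 : embK (a : K) ≠ 0 := by
    intro h0
    apply ha
    have h1 : (a : K) = 0 := by
      apply embK.toRingHom.injective
      rw [map_zero]
      exact h0
    exact RingOfIntegers.ext h1
  refine E1_dist (S3.embK_mem a) ha0 (fun i => ?_) (fun x hx => ?_) z
  · rw [mul_div_cancel₀ _ ha0]
    exact S3.embK_mem _
  · obtain ⟨y, hy⟩ := S3.mem_PP_iff.1 hx
    have key : ∀ i, x - embK (ρ i : K) / embK (a : K) ∈ PP.lattice ↔ a ∣ y - ρ i := by
      intro i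
      have e : embK ((y - ρ i : 𝓞 K) : K) =
          embK (a : K) * (x - embK (ρ i : K) / embK (a : K)) := by
        have e1 : ((y - ρ i : 𝓞 K) : K) = (y : K) - (ρ i : K) := rfl
        rw [e1, map_sub, hy]
        field_simp
      constructor
      · intro hm
        obtain ⟨b, hb⟩ := S3.mem_PP_iff.1 hm
        refine ⟨b, ?_⟩
        apply RingOfIntegers.ext
        apply embK.toRingHom.injective
        have e2 : ((a * b : 𝓞 K) : K) = (a : K) * (b : K) := rfl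
        show embK ((y - ρ i : 𝓞 K) : K) = embK ((a * b : 𝓞 K) : K)
        rw [e, e2, map_mul, hb]
      · rintro ⟨b, hb⟩
        rw [hb] at e
        have e2 : ((a * b : 𝓞 K) : K) = (a : K) * (b : K) := rfl
        rw [e2, map_mul] at e
        have e3 := mul_left_cancel₀ ha0 e
        rw [← e3]
        exact S3.embK_mem b
    obtain ⟨i, hi, hiu⟩ := h y
    exact ⟨i, (key i).2 hi, fun j hj => hiu j ((key j).1 hj)⟩

/-! ## 3.8 and 3.9 -/

variable {A : ValuationSubring ℂ}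

/-- `E1 (z) / Om` is integral at `2` if `m z ∈ ℤ[zt]`, `m` odd. -/
theorem E1_mem (hA : (2 : ℂ)⁻¹ ∉ A) {m : ℤ} (hm : Odd m) {z : ℂ}
    (hmz : ∃ a : 𝓞 K, embK (a : K) = m * z) : E1 z / Om ∈ A := by
  obtain ⟨a, ha⟩ := hmz
  have h1 : ((m.natAbs : ℕ) : ℂ) * z ∈ PP.lattice := by
    rcases m.natAbs_eq with h | h
    · have h2 : (m : ℂ) = ((m.natAbs : ℕ) : ℂ) := by
        conv_lhs => rw [h]
        simp
      rw [← h2, ← ha]
      exact S3.embK_mem a
    · have h2 : (m : ℂ) = -((m.natAbs : ℕ) : ℂ) := by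
        conv_lhs => rw [h]
        simp
      have h3 : ((m.natAbs : ℕ) : ℂ) * z = - embK (a : K) := by
        rw [ha, h2]
        ring
      rw [h3]
      exact neg_mem (S3.embK_mem a)
  exact S3.E1_mem hA (Int.natAbs_odd.2 hm) h1

/-- The norm of an odd element of `𝓞 K` is odd. -/
theorem exists_odd_multiple {c : 𝓞 K} (hc : IsCoprime c 2) :
    ∃ (m : ℤ) (d : 𝓞 K), Odd m ∧ (m : 𝓞 K) = d * c := by
  obtain ⟨x, y, hxy⟩ := S3.exists_coords c
  have hd : ∃ d : 𝓞 K, (d : K) = x + y * om ^ 2 := by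
    refine ⟨(x : 𝓞 K) + y * S3.omO ^ 2, ?_⟩
    change algebraMap (𝓞 K) K ((x : 𝓞 K) + y * S3.omO ^ 2) = _
    rw [map_add, map_mul, map_pow, map_intCast, map_intCast]
    rfl
  obtain ⟨d, hd⟩ := hd
  refine ⟨x ^ 2 - x * y + y ^ 2, d, ?_, ?_⟩
  · by_contra hev
    rw [Int.not_odd_iff_even] at hev
    have hxe : Even x ∧ Even y := by
      by_contra hne
      rcases Int.even_or_odd x with h1 | h1 <;> rcases Int.even_or_odd y with h2 | h2
      · exact hne ⟨h1, h2⟩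
      · have : Odd (x ^ 2 - x * y + y ^ 2) :=
          ((h1.pow_of_ne_zero two_ne_zero).sub (h1.mul_right y)).add_odd h2.pow
        exact (Int.not_odd_iff_even.2 hev) this
      · have : Odd (x ^ 2 - x * y + y ^ 2) :=
          (h1.pow.sub_even (h2.mul_left x)).add_even (h2.pow_of_ne_zero two_ne_zero)
        exact (Int.not_odd_iff_even.2 hev) this
      · have : Odd (x ^ 2 - x * y + y ^ 2) := (h1.pow.sub_odd (h1.mul h2)).add_odd h2.pow
        exact (Int.not_odd_iff_even.2 hev) this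
    obtain ⟨⟨x', hx'⟩, ⟨y', hy'⟩⟩ := hxe
    have h2c : (2 : 𝓞 K) ∣ c := by
      refine ⟨(x' : 𝓞 K) + y' * S3.omO, ?_⟩
      apply RingOfIntegers.ext
      have e : algebraMap (𝓞 K) K (2 * ((x' : 𝓞 K) + y' * S3.omO)) =
          2 * ((x' : K) + y' * om) := by
        rw [map_mul, map_add, map_mul, map_intCast, map_intCast, map_ofNat]
        rfl
      have e2 : algebraMap (𝓞 K) K c = x + y * om := hxy
      change algebraMap (𝓞 K) K c = algebraMap (𝓞 K) K (2 * ((x' : 𝓞 K) + y' * S3.omO))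
      rw [e, e2, hx', hy']
      push_cast
      ring
    have hu : IsUnit (2 : 𝓞 K) := hc.isUnit_of_dvd' h2c dvd_rfl
    obtain ⟨w, hw⟩ := hu.exists_right_inv
    obtain ⟨p, q, hpq⟩ := S3.exists_coords w
    have e3 : (2 : ℂ) * (p + q * zt) = 1 := by
      have e4 : (2 : K) * (w : K) = 1 := by
        have := congrArg (algebraMap (𝓞 K) K) hw
        rw [map_mul, map_one, map_ofNat] at this
        exact this
      rw [hpq] at e4
      have e5 := congrArg embK e4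
      rw [map_mul, map_add, map_mul, map_intCast, map_intCast, embK_om, map_one, map_ofNat] at e5
      exact e5
    have e6 : (q : ℝ) * zt.im = 0 := by
      have := congrArg Complex.im e3
      simp at this
      rcases this with h | h
      · rw [h]; simp
      · rw [h, mul_zero]
    have e7 : q = 0 := by
      have := (mul_eq_zero.1 e6).resolve_right S3.zt_im_ne_zero
      exact_mod_cast this
    rw [e7] at e3
    have e8 : (2 : ℤ) * p = 1 := by
      have : ((2 * p : ℤ) : ℂ) = 1 := by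
        push_cast
        simpa using e3
      exact_mod_cast this
    omega
  · apply RingOfIntegers.ext
    have e1 : algebraMap (𝓞 K) K (d * c) = (x + y * om ^ 2) * (x + y * om) := by
      rw [map_mul]
      have h1 : algebraMap (𝓞 K) K d = x + y * om ^ 2 := hd
      have h2 : algebraMap (𝓞 K) K c = x + y * om := hxy
      rw [h1, h2]
    change algebraMap (𝓞 K) K (((x ^ 2 - x * y + y ^ 2 : ℤ) : 𝓞 K)) = algebraMap (𝓞 K) K (d * c)
    rw [e1, map_intCast]
    push_cast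
    linear_combination (-(x : K) * y) * S3.om_quad - (y : K) ^ 2 * om_spec.pow_eq_one

/-- `E1 (z) / Om` is integral at `2` if `c z ∈ 𝓞 K` for an odd `c ∈ 𝓞 K`. -/
theorem E1_mem_O (hA : (2 : ℂ)⁻¹ ∉ A) {c : 𝓞 K} (hc : IsCoprime c 2) {z : ℂ}
    (hcz : ∃ a : 𝓞 K, embK (a : K) = embK (c : K) * z) : E1 z / Om ∈ A := by
  obtain ⟨m, d, hm, e⟩ := exists_odd_multiple hc
  obtain ⟨a, ha⟩ := hcz
  refine E1_mem hA hm ⟨d * a, ?_⟩
  have e1 : ((d * a : 𝓞 K) : K) = (d : K) * (a : K) := rfl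
  have e2 : (m : ℂ) = embK (d : K) * embK (c : K) := by
    rw [← map_mul]
    have e3 : (d : K) * (c : K) = ((d * c : 𝓞 K) : K) := rfl
    rw [e3, ← e]
    have e4 : ((m : 𝓞 K) : K) = (m : K) := map_intCast (algebraMap (𝓞 K) K) m
    rw [e4, map_intCast]
  rw [e1, map_mul, ha, e2]
  ring

theorem E1_third_mem (hA : (2 : ℂ)⁻¹ ∉ A) : E1 (1 / 3) / Om ∈ A := (S3.E1_third_unit hA).1

theorem E1_third_inv_mem (hA : (2 : ℂ)⁻¹ ∉ A) : (E1 (1 / 3) / Om)⁻¹ ∈ A := (S3.E1_third_unit hA).2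

theorem E1_third_ne_zero : E1 (1 / 3) ≠ 0 := S3.E1_third_ne_zero

/-! ## 3.10 -/

theorem exists_valuationSubring : ∃ A : ValuationSubring ℂ, (2 : ℂ)⁻¹ ∉ A := S3.exists_A

theorem mem_of_isIntegral {x : ℂ} (hx : IsIntegral ℤ x) : x ∈ A := S3.mem_of_isIntegral hx

theorem inv_odd_mem (hA : (2 : ℂ)⁻¹ ∉ A) {m : ℤ} (hm : Odd m) : ((m : ℂ))⁻¹ ∈ A :=
  S3.odd_inv_mem hA hm

/-! ## The interface fixed by the project leader -/

theorem s3_Om : Om ≠ 0 := Om_ne_zero

theorem s3_period (z : ℂ) (l : ℤ × ℤ) : E1 (z + lp l) = E1 z := S3.E1_add (S3.lp_mem l) z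

theorem s3_neg (z : ℂ) : E1 (-z) = -E1 z := S3.E1_neg z

theorem s3_zt (z : ℂ) : E1 (zt * z) = zt ^ 2 * E1 z := S3.E1_zt z

theorem s3_zero (l : ℤ × ℤ) : E1 (lp l) = 0 := S3.E1_coe (S3.lp_mem l)

/-- Distribution relation (3.6), for all `z`. -/
theorem s3_dist' (α : ℤ × ℤ) (hα : α ≠ 0) (T : Finset ℂ)
    (hT : ∀ t ∈ T, ∃ l : ℤ × ℤ, lp α * t = lp l)
    (hinj : ∀ t ∈ T, ∀ t' ∈ T, (∃ l : ℤ × ℤ, t - t' = lp l) → t = t')
    (hcard : (T.card : ℤ) = α.1 ^ 2 - α.1 * α.2 + α.2 ^ 2) (z : ℂ) :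
    ∑ t ∈ T, E1 (z + t) = lp α * E1 (lp α * z) := by
  classical
  obtain ⟨a, ha⟩ := S3.mem_PP_iff.1 (S3.lp_mem α)
  have hα0 : lp α ≠ 0 := by
    intro h
    apply hα
    have h1 : (α.2 : ℝ) * zt.im = 0 := by
      have := congrArg Complex.im h
      simpa [lp] using this
    have h2 : α.2 = 0 := by
      have := (mul_eq_zero.1 h1).resolve_right S3.zt_im_ne_zero
      exact_mod_cast this
    have h3 : α.1 = 0 := by
      have h4 : (α.1 : ℂ) = 0 := by
        rw [lp, h2] at h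
        simpa using h
      exact_mod_cast h4
    exact Prod.ext h3 h2
  have ha0 : a ≠ 0 := by
    rintro rfl
    apply hα0
    rw [← ha]
    exact map_zero embK
  have hT' : ∀ t : T, ∃ b : 𝓞 K, embK (b : K) = lp α * (t : ℂ) := by
    intro t
    obtain ⟨l, hl⟩ := hT t t.2
    rw [hl]
    exact S3.mem_PP_iff.1 (S3.lp_mem l)
  choose β hβ using hT'
  have key : ∀ (x y : 𝓞 K) (u v : ℂ), embK (x : K) = lp α * u → embK (y : K) = lp α * v →
      (a ∣ x - y ↔ u - v ∈ PP.lattice) := by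
    intro x y u v hx hy
    have e : embK ((x - y : 𝓞 K) : K) = lp α * (u - v) := by
      have e1 : ((x - y : 𝓞 K) : K) = (x : K) - (y : K) := rfl
      rw [e1, map_sub, hx, hy]
      ring
    constructor
    · rintro ⟨b, hb⟩
      rw [hb] at e
      have e2 : ((a * b : 𝓞 K) : K) = (a : K) * (b : K) := rfl
      rw [e2, map_mul, ha] at e
      rw [← mul_left_cancel₀ hα0 e]
      exact S3.embK_mem b
    · intro hm
      obtain ⟨b, hb⟩ := S3.mem_PP_iff.1 hm
      refine ⟨b, ?_⟩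
      apply RingOfIntegers.ext
      apply embK.toRingHom.injective
      have e2 : ((a * b : 𝓞 K) : K) = (a : K) * (b : K) := rfl
      show embK ((x - y : 𝓞 K) : K) = embK ((a * b : 𝓞 K) : K)
      rw [e, e2, map_mul, hb, ha]
  have hcardq := S3.card_quot a (p := α.1) (q := α.2) ha
  have hI : (Ideal.span {a} : Ideal (𝓞 K)) ≠ ⊥ := by
    rw [Ne, Ideal.span_singleton_eq_bot]
    exact ha0
  have hfin : Finite (𝓞 K ⧸ Ideal.span {a}) := Ideal.finiteQuotientOfFreeOfNeBot _ hI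
  have hfty : Fintype (𝓞 K ⧸ Ideal.span {a}) := Fintype.ofFinite _
  have hcards : Fintype.card T = Fintype.card (𝓞 K ⧸ Ideal.span {a}) := by
    rw [Fintype.card_coe, ← Nat.card_eq_fintype_card (α := 𝓞 K ⧸ Ideal.span {a})]
    rw [← hcard] at hcardq
    exact_mod_cast hcardq.symm
  have hphi : Function.Injective
      (fun t : T => (Ideal.Quotient.mk (Ideal.span {a}) (β t))) := by
    intro t t' h
    simp only at h
    rw [Ideal.Quotient.eq, Ideal.mem_span_singleton, key _ _ _ _ (hβ t) (hβ t')] at h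
    exact Subtype.ext (hinj t t.2 t' t'.2 (S3.mem_iff_lp.1 h))
  have hbij := (Fintype.bijective_iff_injective_and_card _).2 ⟨hphi, hcards⟩
  have hd := S3.dist (ι := T) (α := lp α) (τ := fun t => (t : ℂ)) (S3.lp_mem α) hα0
    (fun t => by
      obtain ⟨l, hl⟩ := hT t t.2
      show lp α * (t : ℂ) ∈ _
      rw [hl]
      exact S3.lp_mem l)
    (fun x hx => by
      obtain ⟨y, hy⟩ := S3.mem_PP_iff.1 hx
      obtain ⟨t, ht⟩ := hbij.2 (Ideal.Quotient.mk (Ideal.span {a}) y)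
      simp only at ht
      refine ⟨t, ?_, ?_⟩
      · have h1 : a ∣ y - β t := by
          rw [← Ideal.mem_span_singleton, ← Ideal.Quotient.eq]
          exact ht.symm
        exact (key _ _ _ _ hy (hβ t)).1 h1
      · intro t' ht'
        have h2 : a ∣ y - β t' := (key _ _ _ _ hy (hβ t')).2 ht'
        rw [← Ideal.mem_span_singleton, ← Ideal.Quotient.eq] at h2
        exact hbij.1 (h2.symm.trans ht.symm)) z
  rw [← hd]
  exact (Finset.sum_coe_sort T (fun t => E1 (z + t))).symm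

/-- Distribution relation (3.6). -/
theorem s3_dist (α : ℤ × ℤ) (hα : α ≠ 0) (T : Finset ℂ)
    (hT : ∀ t ∈ T, ∃ l : ℤ × ℤ, lp α * t = lp l)
    (hinj : ∀ t ∈ T, ∀ t' ∈ T, (∃ l : ℤ × ℤ, t - t' = lp l) → t = t')
    (hcard : (T.card : ℤ) = α.1 ^ 2 - α.1 * α.2 + α.2 ^ 2) (z : ℂ)
    (_hz : ¬ ∃ l : ℤ × ℤ, lp α * z = lp l) :
    ∑ t ∈ T, E1 (z + t) = lp α * E1 (lp α * z) := s3_dist' α hα T hT hinj hcard z

/-- 2-integrality at odd torsion points (3.8). -/
theorem s3_mem (A : ValuationSubring ℂ) (hA : Two A) (m : ℕ) (hm : Odd m) (z : ℂ)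
    (hz : ∃ l : ℤ × ℤ, (m : ℂ) * z = lp l) : E1 z / Om ∈ A := by
  obtain ⟨l, hl⟩ := hz
  refine S3.E1_mem hA hm ?_
  rw [hl]
  exact S3.lp_mem l

/-- Unit at `1/3` (3.9). -/
theorem s3_unit (A : ValuationSubring ℂ) (hA : Two A) :
    E1 (1 / 3) ≠ 0 ∧ (E1 (1 / 3) / Om)⁻¹ ∈ A :=
  ⟨S3.E1_third_ne_zero, (S3.E1_third_unit hA).2⟩

/-- Existence of two-adic places (3.10). -/
theorem s3_exists : ∃ A : ValuationSubring ℂ, Two A := S3.exists_A

/-- 3.3, sums over `ℤ × ℤ`. -/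
theorem s3_hasSum {c : ℂ} (hc : c ≠ 0) (q s r w : ℂ) :
    HasSum (fun l : ℤ × ℤ => Df q (Df s (Df r (fun x => x⁻¹))) (w + c * lp l))
      (Df q (Df s (Df r (fun x => c⁻¹ * E1 (x / c)))) w) := by
  have h := PP.latticeEquivProd.symm.toEquiv.hasSum_iff.2 (S3.hasSum_dif3_inv hc q s r w)
  refine h.congr_fun ?_ |> fun h => h
  intro l
  show _ = Df q (Df s (Df r (fun x => x⁻¹)))
    (w + c * ((PP.latticeEquivProd.symm l : PP.lattice) : ℂ))
  rw [S3.coe_equivProd]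

/-- 3.3, absolute convergence of the integrals. -/
theorem s3_summable {c : ℂ} (hc : c ≠ 0) (q s r w : ℂ) :
    Summable (fun l : ℤ × ℤ =>
      ∫ t in Ioi (0 : ℝ), ‖Df q (Df s (Df r (kerG t))) (w + c * lp l)‖) := by
  have h := PP.latticeEquivProd.symm.toEquiv.summable_iff.2 (S3.summable_dif3 hc q s r w)
  refine h.congr fun l => ?_
  show ∫ t in Ioi (0 : ℝ), ‖Df q (Df s (Df r (kerG t)))
    (w + c * ((PP.latticeEquivProd.symm l : PP.lattice) : ℂ))‖ = _
  rw [S3.coe_equivProd]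

/-- 3.3, the integral form. -/
theorem s3_integral {c : ℂ} (hc : c ≠ 0) (q s r w : ℂ) :
    ∫ t in Ioi (0 : ℝ), ∑' l : ℤ × ℤ, Df q (Df s (Df r (kerG t))) (w + c * lp l) =
      Df q (Df s (Df r (fun x => c⁻¹ * E1 (x / c)))) w := by
  rw [← S3.integral_tsum_dif3 hc q s r w]
  congr 1
  funext t
  rw [← PP.latticeEquivProd.symm.toEquiv.tsum_eq]
  congr with l
  show _ = Df q (Df s (Df r (kerG t)))
    (w + c * ((PP.latticeEquivProd.symm l : PP.lattice) : ℂ))
  rw [S3.coe_equivProd]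

end

end Pool.Agent.Lib.MP_1a91b9_ntT
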