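import Pool.Agent.Lib.MP_1a91b9_ntT.S3.Defs

/-!
# S3 interface: lattice points

The interface theorems `s3_Om`, `s3_period`, `s3_neg`, `s3_zero`, `s3_dist`, `s3_mem`, `s3_unit`,
`s3_exists` are in `S3.Main`.
-/

set_option autoImplicit false

namespace Pool.Agent.Lib.MP_1a91b9_ntT

open NumberField

theorem lp_mem (l : ℤ × ℤ) : lp l ∈ PP.lattice := S3.lp_mem l

theorem mem_lp {x : ℂ} : x ∈ PP.lattice ↔ ∃ l : ℤ × ℤ, x = lp l := S3.mem_iff_lp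

theorem lp_O (l : ℤ × ℤ) : ∃ a : 𝓞 K, embK (a : K) = lp l := S3.mem_PP_iff.1 (lp_mem l)

end Pool.Agent.Lib.MP_1a91b9_ntT
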