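import Pool.Agent.Lib.MP_1a91b9_ntT.S3.Ring

/-!
# Stream S3, file Card: the number of classes modulo an element of `𝓞 K`
-/

set_option autoImplicit false

namespace Pool.Agent.Lib.MP_1a91b9_ntT.S3

open Complex NumberField

noncomputable section

/-- The conjugate embedding. -/
def embK' : K →ₐ[ℚ] ℂ where
  toRingHom := (starRingEnd ℂ).comp embK.toRingHom
  commutes' := fun r => by
    change (starRingEnd ℂ) (embK (algebraMap ℚ K r)) = algebraMap ℚ ℂ r
    rw [embK.commutes]
    change (starRingEnd ℂ) ((r : ℚ) : ℂ) = ((r : ℚ) : ℂ)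
    simp

theorem embK'_apply (x : K) : embK' x = (starRingEnd ℂ) (embK x) := rfl

theorem embK_ne : embK ≠ embK' := by
  intro h
  have h1 := congrArg (fun f : K →ₐ[ℚ] ℂ => f om) h
  simp only [embK'_apply, embK_om] at h1
  have h2 := congrArg Complex.im h1
  rw [Complex.conj_im] at h2
  exact zt_im_ne_zero (by linarith)

theorem finrank_K : Module.finrank ℚ K = 2 := by
  have h := IsCyclotomicExtension.finrank (K := ℚ) (n := 3) K
    (Polynomial.cyclotomic.irreducible_rat (by norm_num))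
  rw [h]
  decide

theorem norm_K (x : K) : ((Algebra.norm ℚ x : ℚ) : ℂ) = embK x * (starRingEnd ℂ) (embK x) := by
  classical
  have h := Algebra.norm_eq_prod_embeddings ℚ ℂ x
  have hcard : Fintype.card (K →ₐ[ℚ] ℂ) = 2 := by
    rw [AlgHom.card, finrank_K]
  have huniv : (Finset.univ : Finset (K →ₐ[ℚ] ℂ)) = {embK, embK'} := by
    symm
    apply Finset.eq_univ_of_card
    rw [Finset.card_pair embK_ne, hcard]
  rw [huniv, Finset.prod_pair embK_ne] at h
  exact h

theorem norm_O (a : 𝓞 K) : ((Algebra.norm ℤ a : ℤ) : ℂ) =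
    embK (a : K) * (starRingEnd ℂ) (embK (a : K)) := by
  rw [← norm_K, ← Algebra.coe_norm_int]
  push_cast
  rfl

theorem norm_coords (p q : ℤ) : ((p : ℂ) + q * zt) * (starRingEnd ℂ) ((p : ℂ) + q * zt) =
    ((p ^ 2 - p * q + q ^ 2 : ℤ) : ℂ) := by
  rw [map_add, map_mul, conj_zt, map_intCast, map_intCast]
  push_cast
  linear_combination ((p : ℂ) * q) * zt_quad + (q : ℂ) ^ 2 * zt_cube

/-- The number of classes modulo `p + q om`. -/
theorem card_quot (a : 𝓞 K) {p q : ℤ} (h : embK (a : K) = p + q * zt) :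
    ((Nat.card (𝓞 K ⧸ Ideal.span {a}) : ℕ) : ℤ) = p ^ 2 - p * q + q ^ 2 := by
  have h1 : Ideal.absNorm (Ideal.span {a}) = (Algebra.norm ℤ a).natAbs :=
    Ideal.absNorm_span_singleton a
  have h2 : Ideal.absNorm (Ideal.span {a}) = Nat.card (𝓞 K ⧸ Ideal.span {a}) := rfl
  have h3 : Algebra.norm ℤ a = p ^ 2 - p * q + q ^ 2 := by
    have h4 := norm_O a
    rw [h, norm_coords] at h4
    exact_mod_cast h4
  rw [← h2, h1, h3]
  have h5 : 0 ≤ p ^ 2 - p * q + q ^ 2 := by nlinarith [sq_nonneg (p - q), sq_nonneg p, sq_nonneg q]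
  exact Int.natAbs_of_nonneg h5

end

end Pool.Agent.Lib.MP_1a91b9_ntT.S3
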