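import Pool.Agent.Lib.MP_1a91b9_ntT.S3.Main

/-!
# S3 definitions used by the other streams

The definitions `PP`, `Om`, `lp`, `Zf`, `etaE`, `E1`, `Df`, `Two` are in `S3.Defs0`; this file
re-exports the whole stream S3.
-/
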