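import Pool.Agent.Lib.MP_1a91b9_ntT.Base

/-!
# S3 definitions: the Eisenstein-Kronecker function `E₁` of the lattice `ℤ[zt]`
-/

set_option autoImplicit false

namespace Pool.Agent.Lib.MP_1a91b9_ntT

noncomputable section

theorem zt_ne : zt.im ≠ 0 := by
  have h : zt.im = Real.sin (2 * Real.pi / 3) := by
    have e : (2 * Real.pi * Complex.I / (3 : ℕ) : ℂ) = ((2 * Real.pi / 3 : ℝ) : ℂ) * Complex.I := by
      push_cast; ring
    rw [zt, e, Complex.exp_ofReal_mul_I_im]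
  rw [h]
  have hp := Real.pi_pos
  exact (Real.sin_pos_of_pos_of_lt_pi (by positivity) (by linarith)).ne'

/-- The lattice `ℤ + ℤ zt` as a period pair. -/
def PP : PeriodPair where
  ω₁ := 1
  ω₂ := zt
  indep := by
    rw [LinearIndependent.pair_iff]
    intro s t h
    have him := congrArg Complex.im h
    have hre := congrArg Complex.re h
    simp at him hre
    have ht : t = 0 := by
      rcases him with h | h
      · exact h
      · exact absurd h zt_ne
    subst ht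
    simpa using hre

/-- `Om ^ 6 = - g₃`. -/
def Om : ℂ := (-(PP.g₃)) ^ (((6 : ℕ) : ℂ)⁻¹)

theorem Om_pow : Om ^ 6 = -(PP.g₃) := by
  rw [Om]
  exact Complex.cpow_nat_inv_pow _ (by norm_num)

/-- The lattice point `p + q zt`. -/
def lp (l : ℤ × ℤ) : ℂ := l.1 + l.2 * zt

/-- The Weierstrass zeta function of `ℤ[zt]` (with `0⁻¹ = 0`). -/
def Zf (z : ℂ) : ℂ := ∑' l : ℤ × ℤ, ((z + lp l)⁻¹ - (lp l)⁻¹ + z * ((lp l) ^ 2)⁻¹)

/-- The quasi period. -/
def etaE : ℂ := 2 * Zf (1 / 2)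

/-- The Eisenstein-Kronecker function `E₁` of `ℤ[zt]`. -/
def E1 (z : ℂ) : ℂ := Zf z - etaE * (starRingEnd ℂ) z

/-- The first difference. -/
def Df (s : ℂ) (f : ℂ → ℂ) (w : ℂ) : ℂ := f w - f (w + s)

/-- A two-adic place of `ℂ`. -/
def Two (A : ValuationSubring ℂ) : Prop := (2 : ℂ)⁻¹ ∉ A

end

end Pool.Agent.Lib.MP_1a91b9_ntT
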