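import Pool.Agent.Lib.MP_1a91b9_ntT.S3.Ker

/-!
# Stream S3, file Diff: lattice sums of differences of `w⁻¹` and of the Gaussian kernel
-/

set_option autoImplicit false

namespace Pool.Agent.Lib.MP_1a91b9_ntT

open Complex MeasureTheory Set

noncomputable section

namespace S3

theorem dif_dif (s r : ℂ) (f : ℂ → ℂ) (w : ℂ) :
    Df s (Df r f) w = f w - f (w + r) - f (w + s) + f (w + s + r) := by
  rw [Df, Df, Df]
  ring

/-- The scaled zeta function. -/
theorem hasSum_scaled {c : ℂ} (hc : c ≠ 0) (w : ℂ) :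
    HasSum (fun l : PP.lattice => ((w + c * l)⁻¹ - (c * (l : ℂ))⁻¹ + w * ((c * (l : ℂ)) ^ 2)⁻¹))
      (c⁻¹ * Zf (w / c)) := by
  have h := (hasSum_Zf (w / c)).mul_left c⁻¹
  have e : (fun l : PP.lattice => ((w + c * l)⁻¹ - (c * (l : ℂ))⁻¹ +
      w * ((c * (l : ℂ)) ^ 2)⁻¹)) = fun l : PP.lattice =>
        c⁻¹ * ((w / c + l)⁻¹ - (l : ℂ)⁻¹ + w / c * ((l : ℂ) ^ 2)⁻¹) := by
    funext l
    have h1 : w + c * l = c * (w / c + l) := by
      field_simp
    rw [h1, mul_inv, mul_inv, mul_pow, mul_inv, div_eq_mul_inv w c, ← inv_pow c]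
    ring
  rw [e]
  exact h

/-- Second differences of `w⁻¹` summed over the lattice `c ℤ[zt]`. -/
theorem hasSum_dif_dif_inv {c : ℂ} (hc : c ≠ 0) (s r w : ℂ) :
    HasSum (fun l : PP.lattice => Df s (Df r (fun x => x⁻¹)) (w + c * l))
      (Df s (Df r (fun x => c⁻¹ * E1 (x / c))) w) := by
  have h1 := (((hasSum_scaled hc w).sub (hasSum_scaled hc (w + r))).sub
    (hasSum_scaled hc (w + s))).add (hasSum_scaled hc (w + s + r))
  have e1 : (Df s (Df r (fun x => c⁻¹ * E1 (x / c))) w) =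
      c⁻¹ * Zf (w / c) - c⁻¹ * Zf ((w + r) / c) - c⁻¹ * Zf ((w + s) / c) +
        c⁻¹ * Zf ((w + s + r) / c) := by
    rw [dif_dif, E1, E1, E1, E1]
    simp only [add_div, map_add]
    ring
  rw [e1]
  have e2 : (fun l : PP.lattice => Df s (Df r (fun x => x⁻¹)) (w + c * l)) =
      fun l : PP.lattice => (((w + c * l)⁻¹ - (c * (l : ℂ))⁻¹ + w * ((c * (l : ℂ)) ^ 2)⁻¹) -
        ((w + r + c * l)⁻¹ - (c * (l : ℂ))⁻¹ + (w + r) * ((c * (l : ℂ)) ^ 2)⁻¹) -
        ((w + s + c * l)⁻¹ - (c * (l : ℂ))⁻¹ + (w + s) * ((c * (l : ℂ)) ^ 2)⁻¹) +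
        ((w + s + r + c * l)⁻¹ - (c * (l : ℂ))⁻¹ + (w + s + r) * ((c * (l : ℂ)) ^ 2)⁻¹)) := by
    funext l
    rw [dif_dif]
    have a1 : w + c * l + r = w + r + c * l := by ring
    have a2 : w + c * l + s = w + s + c * l := by ring
    have a3 : w + s + c * l + r = w + s + r + c * l := by ring
    simp only [a1, a2, a3]
    ring
  rw [e2]
  exact h1

/-- Differences commute with translations. -/
theorem dif_comp_add (s : ℂ) (f : ℂ → ℂ) (w v : ℂ) :
    Df s f (w + v) = f (w + v) - f (w + s + v) := by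
  rw [Df]
  congr 2
  ring

/-- Third differences of `w⁻¹` summed over the lattice `c ℤ[zt]`. -/
theorem hasSum_dif3_inv {c : ℂ} (hc : c ≠ 0) (q s r w : ℂ) :
    HasSum (fun l : PP.lattice => Df q (Df s (Df r (fun x => x⁻¹))) (w + c * l))
      (Df q (Df s (Df r (fun x => c⁻¹ * E1 (x / c)))) w) := by
  have h := (hasSum_dif_dif_inv hc s r w).sub (hasSum_dif_dif_inv hc s r (w + q))
  have e : (fun l : PP.lattice => Df q (Df s (Df r (fun x => x⁻¹))) (w + c * l)) =
      fun l : PP.lattice => Df s (Df r (fun x => x⁻¹)) (w + c * l) -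
        Df s (Df r (fun x => x⁻¹)) (w + q + c * l) := by
    funext l
    exact dif_comp_add q _ w (c * l)
  rw [e]
  exact h

section Moments

theorem moment_aux {a : ℝ} (ha : 0 < a) (k : ℕ) :
    IntegrableOn (fun t : ℝ => t ^ k * Real.exp (-(a * t))) (Ioi 0) ∧
      ∫ t in Ioi (0 : ℝ), t ^ k * Real.exp (-(a * t)) = (1 / a) ^ (k + 1) * k.factorial := by
  have h1 := Real.integral_rpow_mul_exp_neg_mul_Ioi (a := (k : ℝ) + 1) (r := a)
    (by positivity) ha
  have e : (fun t : ℝ => t ^ ((k : ℝ) + 1 - 1) * Real.exp (-(a * t))) =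
      fun t : ℝ => t ^ k * Real.exp (-(a * t)) := by
    funext t
    rw [add_sub_cancel_right, Real.rpow_natCast]
  rw [e] at h1
  have h2 : (1 / a) ^ ((k : ℝ) + 1) = (1 / a) ^ (k + 1) := by
    rw [← Nat.cast_succ, Real.rpow_natCast]
  rw [h2, Real.Gamma_nat_eq_factorial] at h1
  refine ⟨?_, h1⟩
  by_contra hc
  rw [integral_undef hc] at h1
  have : 0 < (1 / a) ^ (k + 1) * (k.factorial : ℝ) := by positivity
  exact this.ne h1

/-- The integral of the bounding function. -/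
theorem bound_integral {S W : ℝ} (hW : 0 < W) :
    IntegrableOn (fun t : ℝ => S * (9 * t * W + 14 * t ^ 2 * W ^ 3) *
      Real.exp (-(t * (W ^ 2 / 4)))) (Ioi 0) ∧
    ∫ t in Ioi (0 : ℝ), S * (9 * t * W + 14 * t ^ 2 * W ^ 3) *
      Real.exp (-(t * (W ^ 2 / 4))) = 1936 * S * (W ^ 3)⁻¹ := by
  have ha : 0 < W ^ 2 / 4 := by positivity
  have h1 := moment_aux ha 1
  have h2 := moment_aux ha 2
  have e : (fun t : ℝ => S * (9 * t * W + 14 * t ^ 2 * W ^ 3) *
      Real.exp (-(t * (W ^ 2 / 4)))) =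
      fun t : ℝ => 9 * S * W * (t ^ 1 * Real.exp (-(W ^ 2 / 4 * t))) +
        14 * S * W ^ 3 * (t ^ 2 * Real.exp (-(W ^ 2 / 4 * t))) := by
    funext t
    rw [mul_comm t (W ^ 2 / 4)]
    ring
  rw [e]
  have i1 := h1.1.const_mul (9 * S * W)
  have i2 := h2.1.const_mul (14 * S * W ^ 3)
  refine ⟨i1.add i2, ?_⟩
  rw [integral_add i1 i2, integral_const_mul, integral_const_mul, h1.2, h2.2]
  have hW0 : W ≠ 0 := hW.ne'
  norm_num
  field_simp
  ring

end Moments

theorem integrable_dif {f : ℝ → ℂ → ℂ} (hf : ∀ w, IntegrableOn (fun t => f t w) (Ioi (0 : ℝ)))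
    (s w : ℂ) : IntegrableOn (fun t => Df s (f t) w) (Ioi (0 : ℝ)) := (hf w).sub (hf (w + s))

theorem integral_dif {f : ℝ → ℂ → ℂ} (hf : ∀ w, IntegrableOn (fun t => f t w) (Ioi (0 : ℝ)))
    (s w : ℂ) : ∫ t in Ioi (0 : ℝ), Df s (f t) w = Df s (fun x => ∫ t in Ioi (0 : ℝ), f t x) w :=
  integral_sub (hf w) (hf (w + s))

/-- The integral of the second difference of the kernel is `O(‖w‖⁻³)`. -/
theorem integral_norm_dif_dif_le {s r w : ℂ} (hw : 2 * (‖s‖ + ‖r‖) ≤ ‖w‖) (hw0 : w ≠ 0) :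
    ∫ t in Ioi (0 : ℝ), ‖Df s (Df r (kerG t)) w‖ ≤ 1936 * (‖s‖ * ‖r‖) * (‖w‖ ^ 3)⁻¹ := by
  have hW : 0 < ‖w‖ := norm_pos_iff.2 hw0
  have hb := bound_integral (S := ‖s‖ * ‖r‖) hW
  rw [← hb.2]
  refine setIntegral_mono_on ?_ hb.1 measurableSet_Ioi ?_
  · exact (integrable_dif (integrable_dif integrable_kerG r) s w).norm
  · intro t ht
    exact norm_dif_dif_kerG_le (le_of_lt ht) hw

/-- Absolute convergence of the lattice sum of the second differences of the kernel. -/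
theorem summable_dif_dif {c : ℂ} (hc : c ≠ 0) (s r w : ℂ) :
    Summable (fun l : PP.lattice =>
      ∫ t in Ioi (0 : ℝ), ‖Df s (Df r (kerG t)) (w + c * l)‖) := by
  have h1 : Summable (fun l : PP.lattice => 1936 * (‖s‖ * ‖r‖) * (8 / ‖c‖ ^ 3) *
      ‖l‖ ^ (-3 : ℝ)) :=
    (ZLattice.summable_norm_rpow _ _ (by simp; norm_num)).mul_left _
  refine Summable.of_norm_bounded_eventually h1 ?_
  have hc0 : 0 < ‖c‖ := norm_pos_iff.2 hc
  set R : ℝ := (2 * ‖w‖ + 4 * (‖s‖ + ‖r‖) + 1) / ‖c‖ with hR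
  refine (isCompact_iff_finite.mp (isCompact_closedBall (0 : PP.lattice) R)).subset ?_
  intro l hl
  by_contra hlR
  apply hl
  simp only [Metric.mem_closedBall, dist_zero_right, not_le] at hlR
  have hlR' : R < ‖(l : ℂ)‖ := hlR
  rw [hR, div_lt_iff₀ hc0] at hlR'
  have hs0 := norm_nonneg s
  have hr0 := norm_nonneg r
  have hw0 := norm_nonneg w
  have hcl : ‖c * (l : ℂ)‖ = ‖(l : ℂ)‖ * ‖c‖ := by rw [norm_mul, mul_comm]
  have h2 : ‖c * (l : ℂ)‖ / 2 ≤ ‖w + c * l‖ := by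
    have h3 : ‖c * (l : ℂ)‖ ≤ ‖w + c * l‖ + ‖w‖ := by
      have e : c * (l : ℂ) = (w + c * l) - w := by ring
      calc ‖c * (l : ℂ)‖ = ‖(w + c * l) - w‖ := by rw [← e]
        _ ≤ _ := norm_sub_le _ _
    rw [hcl] at h3 ⊢
    linarith
  have h4 : 2 * (‖s‖ + ‖r‖) ≤ ‖w + c * l‖ := by
    rw [hcl] at h2
    linarith
  have hpos : 0 < ‖c * (l : ℂ)‖ := by rw [hcl]; linarith
  have h5 : w + c * l ≠ 0 := by
    intro h
    rw [h, norm_zero] at h2
    linarith
  show ‖∫ t in Ioi (0 : ℝ), ‖Df s (Df r (kerG t)) (w + c * l)‖‖ ≤ _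
  rw [Real.norm_of_nonneg (integral_nonneg fun t => norm_nonneg _)]
  refine (integral_norm_dif_dif_le h4 h5).trans ?_
  have hl0 : 0 < ‖(l : ℂ)‖ := by
    rw [hcl] at hpos
    exact pos_of_mul_pos_left hpos hc0.le
  have e3 : ‖l‖ ^ (-3 : ℝ) = (‖(l : ℂ)‖ ^ 3)⁻¹ := by
    rw [Real.rpow_neg (norm_nonneg _)]
    congr 1
    norm_cast
  rw [e3, mul_assoc (1936 * (‖s‖ * ‖r‖))]
  refine mul_le_mul_of_nonneg_left ?_ (by positivity)
  have h6 : (8 / ‖c‖ ^ 3) * (‖(l : ℂ)‖ ^ 3)⁻¹ = ((‖c * (l : ℂ)‖ / 2) ^ 3)⁻¹ := by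
    rw [hcl]
    field_simp
    norm_num
  rw [h6]
  exact inv_anti₀ (by positivity) (pow_le_pow_left₀ (by positivity) h2 3)

/-- Absolute convergence for the third differences. -/
theorem summable_dif3 {c : ℂ} (hc : c ≠ 0) (q s r w : ℂ) :
    Summable (fun l : PP.lattice =>
      ∫ t in Ioi (0 : ℝ), ‖Df q (Df s (Df r (kerG t))) (w + c * l)‖) := by
  have h := (summable_dif_dif hc s r w).add (summable_dif_dif hc s r (w + q))
  refine Summable.of_nonneg_of_le (fun l => integral_nonneg fun t => norm_nonneg _) ?_ h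
  intro l
  have i1 := (integrable_dif (integrable_dif integrable_kerG r) s (w + c * l)).norm
  have i2 := (integrable_dif (integrable_dif integrable_kerG r) s (w + q + c * l)).norm
  rw [← integral_add i1 i2]
  refine integral_mono
    (integrable_dif (integrable_dif (integrable_dif integrable_kerG r) s) q (w + c * l)).norm
    (i1.add i2) ?_
  intro t
  simp only
  rw [dif_comp_add q]
  exact norm_sub_le _ _

theorem integrable_dif3 (q s r w : ℂ) :
    IntegrableOn (fun t => Df q (Df s (Df r (kerG t))) w) (Ioi (0 : ℝ)) :=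
  integrable_dif (integrable_dif (integrable_dif integrable_kerG r) s) q w

theorem integral_dif3 (q s r w : ℂ) :
    ∫ t in Ioi (0 : ℝ), Df q (Df s (Df r (kerG t))) w =
      Df q (Df s (Df r (fun x => x⁻¹))) w := by
  rw [integral_dif (integrable_dif (integrable_dif integrable_kerG r) s)]
  have h1 : (fun x => ∫ t in Ioi (0 : ℝ), Df s (Df r (kerG t)) x) =
      Df s (Df r (fun x => x⁻¹)) := by
    funext x
    rw [integral_dif (integrable_dif integrable_kerG r)]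
    congr 1
    funext y
    rw [integral_dif integrable_kerG]
    congr 1
    funext z
    exact integral_kerG z
  rw [h1]

/-- INTERFACE 3.3 (integral form). -/
theorem integral_tsum_dif3 {c : ℂ} (hc : c ≠ 0) (q s r w : ℂ) :
    ∫ t in Ioi (0 : ℝ), ∑' l : PP.lattice, Df q (Df s (Df r (kerG t))) (w + c * l) =
      Df q (Df s (Df r (fun x => c⁻¹ * E1 (x / c)))) w := by
  rw [← integral_tsum_of_summable_integral_norm
    (F := fun (l : PP.lattice) (t : ℝ) => Df q (Df s (Df r (kerG t))) (w + c * l))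
    (fun l => integrable_dif3 q s r (w + c * l)) (summable_dif3 hc q s r w)]
  rw [← (hasSum_dif3_inv hc q s r w).tsum_eq]
  congr 1
  funext l
  exact integral_dif3 q s r (w + c * l)

end S3

end

end Pool.Agent.Lib.MP_1a91b9_ntT
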