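import Pool.Agent.Lib.MP_1a91b9_ntT.S3.Local

/-!
# Stream S3, file Dup: the duplication formula for `E1`
-/

set_option autoImplicit false

namespace Pool.Agent.Lib.MP_1a91b9_ntT.S3

open Complex Filter Topology

noncomputable section

theorem notMem_of_two_mul {z : ℂ} (hz : 2 * z ∉ PP.lattice) : z ∉ PP.lattice := by
  intro h
  apply hz
  have h2 := mul_mem (nat_mem 2) h
  exact_mod_cast h2

theorem tendsto_two_mul : Tendsto (fun z : ℂ => 2 * z) (𝓝[≠] 0) (𝓝[≠] 0) := by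
  refine tendsto_nhdsWithin_iff.2 ⟨?_, ?_⟩
  · have h2 : ContinuousAt (fun w : ℂ => 2 * w) 0 := by fun_prop
    have h3 := h2.tendsto
    rw [mul_zero] at h3
    exact h3.mono_left nhdsWithin_le_nhds
  · filter_upwards [self_mem_nhdsWithin] with w hw
    exact mul_ne_zero two_ne_zero hw

/-- The auxiliary function of the duplication formula. -/
def dupF (z : ℂ) : ℂ :=
  (E1 (2 * z) - 2 * E1 z) * PP.derivWeierstrassP z - 3 * PP.weierstrassP z ^ 2

theorem dupF_eq : dupF =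
    fun z => (Zf (2 * z) - 2 * Zf z) * PP.derivWeierstrassP z - 3 * PP.weierstrassP z ^ 2 := by
  funext z
  rw [dupF, E1, E1, map_mul, Complex.conj_ofNat]
  ring

theorem dupF_add {l : ℂ} (hl : l ∈ PP.lattice) (z : ℂ) : dupF (z + l) = dupF z := by
  have h2 : 2 * l ∈ PP.lattice := by exact_mod_cast mul_mem (nat_mem 2) hl
  rw [dupF, dupF, mul_add, E1_add h2, E1_add hl, P_add hl, Q_add hl]

theorem differentiableAt_dupF {z : ℂ} (hz : 2 * z ∉ PP.lattice) : DifferentiableAt ℂ dupF z := by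
  have hz1 := notMem_of_two_mul hz
  rw [dupF_eq]
  have h1 : DifferentiableAt ℂ (fun z => Zf (2 * z)) z := by
    have h2 : DifferentiableAt ℂ Zf (2 * z) := (hasDerivAt_Zf hz).differentiableAt
    exact h2.comp z (by fun_prop)
  have h3 : DifferentiableAt ℂ Zf z := (hasDerivAt_Zf hz1).differentiableAt
  have h4 : DifferentiableAt ℂ PP.weierstrassP z := (hasDerivAt_P hz1).differentiableAt
  exact ((h1.sub (h3.const_mul 2)).mul (differentiableAt_Q hz1)).sub ((h4.pow 2).const_mul 3)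

theorem tendsto_dupF_zero : Tendsto dupF (𝓝[≠] 0) (𝓝 0) := by
  have a1 : Tendsto (fun z => Qr z * (z ^ 1)⁻¹) (𝓝[≠] 0) (𝓝 0) := tendsto_Qr (by norm_num)
  have a2 : Tendsto (fun z => Qr z * (z ^ 0)⁻¹) (𝓝[≠] 0) (𝓝 0) := tendsto_Qr (by norm_num)
  have a3 : Tendsto (fun z => Pr z * (z ^ 2)⁻¹) (𝓝[≠] 0) (𝓝 0) := tendsto_Pr (by norm_num)
  have a4 : Tendsto (fun z => Pr z * (z ^ 0)⁻¹) (𝓝[≠] 0) (𝓝 0) := tendsto_Pr (by norm_num)
  have a5 : Tendsto (fun z => ZE 0 z * (z ^ 3)⁻¹) (𝓝[≠] 0) (𝓝 0) := tendsto_ZE (by norm_num)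
  have a6 : Tendsto (fun z => ZE 0 z * (z ^ 0)⁻¹) (𝓝[≠] 0) (𝓝 0) := tendsto_ZE (by norm_num)
  have a7 := a5.comp tendsto_two_mul
  have a8 := a6.comp tendsto_two_mul
  have h := (((((a1.const_mul (-3 / 2)).add ((a8.sub (a6.const_mul 2)).mul a2)).sub
    (a7.const_mul 16)).add (a5.const_mul 4)).sub ((a4.pow 2).const_mul 3)).sub (a3.const_mul 6)
  simp only [mul_zero, add_zero, sub_zero, ne_eq, OfNat.ofNat_ne_zero, not_false_eq_true,
    zero_pow] at h
  refine h.congr' ?_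
  filter_upwards [self_mem_nhdsWithin] with z hz
  have hz0 : z ≠ 0 := hz
  rw [dupF_eq]
  simp only [Function.comp_apply]
  rw [Zf_eq_ZE_zero (2 * z), Zf_eq_ZE_zero z, P_eq z, Q_eq z]
  field_simp
  ring

theorem Q_half {s : ℂ} (hs : 2 * s ∈ PP.lattice) : PP.derivWeierstrassP s = 0 := by
  have h1 := Q_add hs (-s)
  have h2 : -s + 2 * s = s := by ring
  rw [h2, PP.derivWeierstrassP_neg] at h1
  have h3 : 2 * PP.derivWeierstrassP s = 0 := by linear_combination h1
  simpa using h3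

theorem dup {z : ℂ} (hz : 2 * z ∉ PP.lattice) :
    (E1 (2 * z) - 2 * E1 z) * PP.derivWeierstrassP z = 3 * PP.weierstrassP z ^ 2 := by
  have hS : ∀ z : ℂ, ∀ᶠ w in 𝓝[≠] z, w ∉ {w : ℂ | 2 * w ∈ PP.lattice} := fun z =>
    eventually_mul_notMem two_ne_zero z
  have h1 := liouville_eq hS (F := dupF) (fun z hz => differentiableAt_dupF hz) ?_
    (fun l hl z => dupF_add hl z) tendsto_dupF_zero z hz
  · rw [dupF] at h1
    linear_combination h1
  intro s hs
  by_cases hsl : s ∈ PP.lattice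
  · exact tendsto_mul_zero
      (tendsto_at_lattice (fun l hl z => dupF_add hl z) tendsto_dupF_zero hsl)
  · have hs' : 2 * s ∈ PP.lattice := hs
    have b1 : Tendsto (fun z => (2 * z - 2 * s) * E1 (2 * z)) (𝓝[≠] s) (𝓝 1) := by
      refine (tendsto_E1 hs').comp ?_
      refine tendsto_nhdsWithin_iff.2 ⟨?_, ?_⟩
      · have h2 : ContinuousAt (fun w : ℂ => 2 * w) s := by fun_prop
        exact h2.tendsto.mono_left nhdsWithin_le_nhds
      · filter_upwards [self_mem_nhdsWithin] with w hw h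
        exact hw (mul_left_cancel₀ two_ne_zero h)
    have b2 : Tendsto E1 (𝓝[≠] s) (𝓝 (E1 s)) :=
      (continuousAt_E1 hsl).tendsto.mono_left nhdsWithin_le_nhds
    have b3 : Tendsto PP.derivWeierstrassP (𝓝[≠] s) (𝓝 0) := by
      have := (differentiableAt_Q hsl).continuousAt.tendsto.mono_left
        (nhdsWithin_le_nhds (s := {s}ᶜ))
      rwa [Q_half hs'] at this
    have b4 : Tendsto PP.weierstrassP (𝓝[≠] s) (𝓝 (PP.weierstrassP s)) :=
      (continuousAt_P hsl).tendsto.mono_left nhdsWithin_le_nhds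
    have b5 := (((b1.const_mul (1 / 2)).sub ((tendsto_mul_zero b2).const_mul 2)).mul b3).sub
      ((tendsto_mul_zero (b4.pow 2)).const_mul 3)
    simp only [mul_zero, sub_zero] at b5
    refine b5.congr fun z => ?_
    rw [dupF]
    ring

end

end Pool.Agent.Lib.MP_1a91b9_ntT.S3
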