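import Pool.Agent.Lib.MP_1a91b9_ntT.S3.Quasi

/-!
# Stream S3, file Ker: the Gaussian kernel, its integral and its second differences
-/

set_option autoImplicit false

namespace Pool.Agent.Lib.MP_1a91b9_ntT

open Complex MeasureTheory Set

noncomputable section

/-- The Gaussian kernel `conj w * exp (-t |w|²)`. -/
def kerG (t : ℝ) (w : ℂ) : ℂ := (starRingEnd ℂ) w * (Real.exp (-(t * ‖w‖ ^ 2)) : ℂ)

namespace S3

theorem integrable_kerG (w : ℂ) : IntegrableOn (fun t => kerG t w) (Ioi (0 : ℝ)) := by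
  by_cases hw : w = 0
  · subst hw
    simp [kerG]
  · have h1 : 0 < ‖w‖ ^ 2 := by positivity
    have h2 : IntegrableOn (fun t : ℝ => Real.exp (-‖w‖ ^ 2 * t)) (Ioi 0) :=
      integrableOn_exp_mul_Ioi (by linarith) 0
    have h3 := (h2.ofReal (𝕜 := ℂ)).const_mul ((starRingEnd ℂ) w)
    refine h3.congr (Filter.Eventually.of_forall fun t => ?_)
    show (starRingEnd ℂ) w * ((Real.exp (-‖w‖ ^ 2 * t) : ℝ) : ℂ) = kerG t w
    rw [kerG]
    congr 3
    ring

theorem integral_kerG (w : ℂ) : ∫ t in Ioi (0 : ℝ), kerG t w = w⁻¹ := by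
  by_cases hw : w = 0
  · subst hw
    simp [kerG]
  · have h1 : 0 < ‖w‖ ^ 2 := by positivity
    have h2 : ∫ t : ℝ in Ioi 0, Real.exp (-‖w‖ ^ 2 * t) = (‖w‖ ^ 2)⁻¹ := by
      rw [integral_exp_mul_Ioi (by linarith) 0, mul_zero, Real.exp_zero, neg_div_neg_eq, one_div]
    have h3 : ∀ t : ℝ, kerG t w = (starRingEnd ℂ) w * ((Real.exp (-‖w‖ ^ 2 * t) : ℝ) : ℂ) := by
      intro t
      rw [kerG]
      congr 3
      ring
    simp_rw [h3]
    rw [integral_const_mul, integral_complex_ofReal, h2, Complex.inv_def,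
      Complex.normSq_eq_norm_sq]

/-- The first derivative of the kernel along a line. -/
def kerD (t : ℝ) (s u v : ℂ) : ℂ :=
  ((starRingEnd ℂ) s - t * v * (s * v + u * (starRingEnd ℂ) s)) * Complex.exp (-(t * (u * v)))

/-- The second derivative of the kernel. -/
def kerDD (t : ℝ) (s r u v : ℂ) : ℂ :=
  (-(t * ((starRingEnd ℂ) r * (s * v + u * (starRingEnd ℂ) s) +
      v * (s * (starRingEnd ℂ) r + r * (starRingEnd ℂ) s))) -
    t * (r * v + u * (starRingEnd ℂ) r) *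
      ((starRingEnd ℂ) s - t * v * (s * v + u * (starRingEnd ℂ) s))) *
    Complex.exp (-(t * (u * v)))

theorem kerG_eq (t : ℝ) (w : ℂ) :
    kerG t w = (starRingEnd ℂ) w * Complex.exp (-(t * (w * (starRingEnd ℂ) w))) := by
  rw [kerG, Complex.ofReal_exp, Complex.mul_conj, Complex.normSq_eq_norm_sq]
  push_cast
  ring_nf

theorem hasDerivAt_line (w s : ℂ) (a : ℝ) : HasDerivAt (fun a : ℝ => w + a * s) s a := by
  have h : HasDerivAt (fun a : ℝ => (a : ℂ)) 1 a := Complex.ofRealCLM.hasDerivAt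
  simpa using (h.mul_const s).const_add w

theorem hasDerivAt_kerG (t : ℝ) (w s : ℂ) (a : ℝ) :
    HasDerivAt (fun a : ℝ => kerG t (w + a * s))
      (kerD t s (w + a * s) ((starRingEnd ℂ) w + a * (starRingEnd ℂ) s)) a := by
  have h1 := hasDerivAt_line w s a
  have h2 := hasDerivAt_line ((starRingEnd ℂ) w) ((starRingEnd ℂ) s) a
  have h3 := h2.mul ((((h1.mul h2).const_mul (t : ℂ)).neg).cexp)
  have h4 : (fun a : ℝ => kerG t (w + a * s)) =
      fun a : ℝ => ((starRingEnd ℂ) w + a * (starRingEnd ℂ) s) *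
        Complex.exp (-(t * ((w + a * s) * ((starRingEnd ℂ) w + a * (starRingEnd ℂ) s)))) := by
    funext a
    rw [kerG_eq, map_add, map_mul, Complex.conj_ofReal]
  rw [h4]
  refine h3.congr_deriv ?_
  rw [kerD]
  simp only [Pi.mul_apply, Pi.neg_apply]
  ring

theorem hasDerivAt_kerD (t : ℝ) (s w r : ℂ) (a : ℝ) :
    HasDerivAt (fun a : ℝ => kerD t s (w + a * r) ((starRingEnd ℂ) w + a * (starRingEnd ℂ) r))
      (kerDD t s r (w + a * r) ((starRingEnd ℂ) w + a * (starRingEnd ℂ) r)) a := by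
  have h1 := hasDerivAt_line w r a
  have h2 := hasDerivAt_line ((starRingEnd ℂ) w) ((starRingEnd ℂ) r) a
  have h3 := (((h2.const_mul (t : ℂ)).mul ((h2.const_mul s).add
    (h1.mul_const ((starRingEnd ℂ) s)))).const_sub ((starRingEnd ℂ) s)).mul
    ((((h1.mul h2).const_mul (t : ℂ)).neg).cexp)
  refine h3.congr_deriv ?_
  rw [kerDD]
  simp only [Pi.mul_apply, Pi.add_apply, Pi.neg_apply]
  ring

theorem norm_kerDD_le {t : ℝ} (ht : 0 ≤ t) (s r u : ℂ) :
    ‖kerDD t s r u ((starRingEnd ℂ) u)‖ ≤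
      ‖s‖ * ‖r‖ * (6 * t * ‖u‖ + 4 * t ^ 2 * ‖u‖ ^ 3) * Real.exp (-(t * ‖u‖ ^ 2)) := by
  have hexp : ‖Complex.exp (-(t * (u * (starRingEnd ℂ) u)))‖ = Real.exp (-(t * ‖u‖ ^ 2)) := by
    rw [Complex.mul_conj, Complex.normSq_eq_norm_sq, Complex.norm_exp]
    congr 1
    have : -((t : ℂ) * ((‖u‖ ^ 2 : ℝ) : ℂ)) = ((-(t * ‖u‖ ^ 2) : ℝ) : ℂ) := by push_cast; ring
    rw [this, Complex.ofReal_re]
  have hcs : ‖(starRingEnd ℂ) s‖ = ‖s‖ := by simp
  have hcr : ‖(starRingEnd ℂ) r‖ = ‖r‖ := by simp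
  have hcu : ‖(starRingEnd ℂ) u‖ = ‖u‖ := by simp
  have ht' : ‖(t : ℂ)‖ = t := by rw [Complex.norm_real, Real.norm_of_nonneg ht]
  set S := ‖s‖ with hS
  set R := ‖r‖ with hR
  set U := ‖u‖ with hU
  have hS0 : 0 ≤ S := norm_nonneg _
  have hR0 : 0 ≤ R := norm_nonneg _
  have hU0 : 0 ≤ U := norm_nonneg _
  have b1 : ‖s * (starRingEnd ℂ) u + u * (starRingEnd ℂ) s‖ ≤ 2 * S * U := by
    refine (norm_add_le _ _).trans ?_
    rw [norm_mul, norm_mul, hcu, hcs]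
    linarith
  have b2 : ‖r * (starRingEnd ℂ) u + u * (starRingEnd ℂ) r‖ ≤ 2 * R * U := by
    refine (norm_add_le _ _).trans ?_
    rw [norm_mul, norm_mul, hcu, hcr]
    linarith
  have b3 : ‖s * (starRingEnd ℂ) r + r * (starRingEnd ℂ) s‖ ≤ 2 * S * R := by
    refine (norm_add_le _ _).trans ?_
    rw [norm_mul, norm_mul, hcr, hcs]
    linarith
  have b4 : ‖(starRingEnd ℂ) s -
      t * (starRingEnd ℂ) u * (s * (starRingEnd ℂ) u + u * (starRingEnd ℂ) s)‖ ≤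
      S + t * U * (2 * S * U) := by
    refine (norm_sub_le _ _).trans ?_
    rw [norm_mul, norm_mul, ht', hcu, hcs]
    gcongr
  rw [kerDD, norm_mul, hexp]
  refine mul_le_mul_of_nonneg_right ?_ (Real.exp_pos _).le
  refine (norm_sub_le _ _).trans ?_
  rw [norm_neg, norm_mul, norm_mul (_ * _) (_ - _), norm_mul (t : ℂ) (_ + _), ht']
  have b5 : ‖(starRingEnd ℂ) r * (s * (starRingEnd ℂ) u + u * (starRingEnd ℂ) s) +
      (starRingEnd ℂ) u * (s * (starRingEnd ℂ) r + r * (starRingEnd ℂ) s)‖ ≤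
      R * (2 * S * U) + U * (2 * S * R) := by
    refine (norm_add_le _ _).trans ?_
    rw [norm_mul, norm_mul, hcr, hcu]
    gcongr
  calc t * ‖(starRingEnd ℂ) r * (s * (starRingEnd ℂ) u + u * (starRingEnd ℂ) s) +
      (starRingEnd ℂ) u * (s * (starRingEnd ℂ) r + r * (starRingEnd ℂ) s)‖ +
      t * ‖r * (starRingEnd ℂ) u + u * (starRingEnd ℂ) r‖ * ‖(starRingEnd ℂ) s -
      t * (starRingEnd ℂ) u * (s * (starRingEnd ℂ) u + u * (starRingEnd ℂ) s)‖
      ≤ t * (R * (2 * S * U) + U * (2 * S * R)) +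
        t * (2 * R * U) * (S + t * U * (2 * S * U)) := by gcongr
    _ = S * R * (6 * t * U + 4 * t ^ 2 * U ^ 3) := by ring

/-- The bound of the second differences of the kernel. -/
theorem norm_dif_dif_kerG_le {t : ℝ} (ht : 0 ≤ t) {s r w : ℂ} (hw : 2 * (‖s‖ + ‖r‖) ≤ ‖w‖) :
    ‖Df s (Df r (kerG t)) w‖ ≤
      ‖s‖ * ‖r‖ * (9 * t * ‖w‖ + 14 * t ^ 2 * ‖w‖ ^ 3) * Real.exp (-(t * (‖w‖ ^ 2 / 4))) := by
  set C := ‖s‖ * ‖r‖ * (9 * t * ‖w‖ + 14 * t ^ 2 * ‖w‖ ^ 3) *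
    Real.exp (-(t * (‖w‖ ^ 2 / 4))) with hC
  have hbound : ∀ a ∈ Ico (0 : ℝ) 1, ∀ b ∈ Ico (0 : ℝ) 1,
      ‖kerDD t s r (w + a * s + b * r)
        ((starRingEnd ℂ) (w + a * s) + b * (starRingEnd ℂ) r)‖ ≤ C := by
    intro a ha b hb
    have e : (starRingEnd ℂ) (w + a * s) + b * (starRingEnd ℂ) r =
        (starRingEnd ℂ) (w + a * s + b * r) := by
      rw [map_add _ (w + a * s), map_mul _ (b : ℂ), Complex.conj_ofReal]
    rw [e]
    refine (norm_kerDD_le ht s r _).trans ?_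
    have h1 : ‖(a : ℂ) * s‖ ≤ ‖s‖ := by
      rw [norm_mul, Complex.norm_real, Real.norm_of_nonneg ha.1]
      nlinarith [norm_nonneg s, ha.2]
    have h2 : ‖(b : ℂ) * r‖ ≤ ‖r‖ := by
      rw [norm_mul, Complex.norm_real, Real.norm_of_nonneg hb.1]
      nlinarith [norm_nonneg r, hb.2]
    have h3 : ‖w + a * s + b * r‖ ≤ 3 / 2 * ‖w‖ := by
      refine (norm_add_le _ _).trans ?_
      have := norm_add_le w ((a : ℂ) * s)
      linarith
    have h4 : ‖w‖ / 2 ≤ ‖w + a * s + b * r‖ := by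
      have h5 : ‖w‖ ≤ ‖w + a * s + b * r‖ + ‖(a : ℂ) * s‖ + ‖(b : ℂ) * r‖ := by
        have e2 : w = (w + a * s + b * r) - a * s - b * r := by ring
        calc ‖w‖ = ‖(w + a * s + b * r) - a * s - b * r‖ := by rw [← e2]
          _ ≤ ‖(w + a * s + b * r) - a * s‖ + ‖(b : ℂ) * r‖ := norm_sub_le _ _
          _ ≤ _ := by
            have := norm_sub_le (w + a * s + b * r) ((a : ℂ) * s)
            linarith
      linarith
    set U := ‖w + a * s + b * r‖ with hU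
    have hU0 : 0 ≤ U := norm_nonneg _
    have hw0 : 0 ≤ ‖w‖ := norm_nonneg _
    have h6 : 6 * t * U + 4 * t ^ 2 * U ^ 3 ≤ 9 * t * ‖w‖ + 14 * t ^ 2 * ‖w‖ ^ 3 := by
      have h7 : U ^ 3 ≤ (3 / 2 * ‖w‖) ^ 3 := pow_le_pow_left₀ hU0 h3 3
      have h8 : 6 * t * U ≤ 6 * t * (3 / 2 * ‖w‖) := by gcongr
      have h9 : 4 * t ^ 2 * U ^ 3 ≤ 4 * t ^ 2 * (3 / 2 * ‖w‖) ^ 3 := by gcongr
      have h10 : 0 ≤ t ^ 2 * ‖w‖ ^ 3 := by positivity
      nlinarith
    have h7 : Real.exp (-(t * U ^ 2)) ≤ Real.exp (-(t * (‖w‖ ^ 2 / 4))) := by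
      apply Real.exp_le_exp.2
      have h8 : (‖w‖ / 2) ^ 2 ≤ U ^ 2 := pow_le_pow_left₀ (by positivity) h4 2
      have h9 : ‖w‖ ^ 2 / 4 ≤ U ^ 2 := by nlinarith
      nlinarith [mul_le_mul_of_nonneg_left h9 ht]
    rw [hC]
    gcongr
  have h1 : ∀ a ∈ Ico (0 : ℝ) 1,
      ‖kerD t s (w + r + a * s) ((starRingEnd ℂ) (w + r) + a * (starRingEnd ℂ) s) -
        kerD t s (w + a * s) ((starRingEnd ℂ) w + a * (starRingEnd ℂ) s)‖ ≤ C := by
    intro a ha
    have h2 := norm_image_sub_le_of_norm_deriv_le_segment_01'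
      (f := fun b : ℝ => kerD t s (w + a * s + b * r)
        ((starRingEnd ℂ) (w + a * s) + b * (starRingEnd ℂ) r))
      (fun b _ => (hasDerivAt_kerD t s (w + a * s) r b).hasDerivWithinAt)
      (fun b hb => hbound a ha b hb)
    simp only [Complex.ofReal_one, Complex.ofReal_zero, one_mul, zero_mul, add_zero] at h2
    have e1 : w + a * s + r = w + r + a * s := by ring
    have e2 : (starRingEnd ℂ) (w + a * s) = (starRingEnd ℂ) w + a * (starRingEnd ℂ) s := by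
      rw [map_add, map_mul, Complex.conj_ofReal]
    have e3 : (starRingEnd ℂ) w + a * (starRingEnd ℂ) s + (starRingEnd ℂ) r =
        (starRingEnd ℂ) (w + r) + a * (starRingEnd ℂ) s := by
      rw [map_add]
      ring
    rw [e2, e1, e3] at h2
    exact h2
  have h3 := norm_image_sub_le_of_norm_deriv_le_segment_01'
    (f := fun a : ℝ => kerG t (w + r + a * s) - kerG t (w + a * s))
    (fun a _ => ((hasDerivAt_kerG t (w + r) s a).sub (hasDerivAt_kerG t w s a)).hasDerivWithinAt)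
    (fun a ha => h1 a ha)
  simp only [Complex.ofReal_one, Complex.ofReal_zero, one_mul, zero_mul, add_zero] at h3
  have e4 : Df s (Df r (kerG t)) w =
      kerG t (w + r + s) - kerG t (w + s) - (kerG t (w + r) - kerG t w) := by
    rw [Df, Df, Df]
    have : w + s + r = w + r + s := by ring
    rw [this]
    ring
  rw [e4]
  exact h3

end S3

end

end Pool.Agent.Lib.MP_1a91b9_ntT
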