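import Pool.Agent.Lib.MP_1a91b9_ntT.S3.Defs0

/-!
# Stream S3, file Lat: the hexagonal lattice `ℤ + ℤ zt`, its Weierstrass functions

The lattice `PP.lattice = ℤ[zt]`, its invariants `g₂ = 0`, `g₃ ≠ 0`, a complex number `Om` with
`Om ^ 6 = - g₃`, the Weierstrass zeta function `Zf` and the Eisenstein-Kronecker function `E1`.
-/

set_option autoImplicit false

namespace Pool.Agent.Lib.MP_1a91b9_ntT

open Complex

noncomputable section

namespace S3

theorem zt_cube : zt ^ 3 = 1 := zt_spec.pow_eq_one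

theorem zt_ne_one : zt ≠ 1 := zt_spec.ne_one (by norm_num)

theorem zt_ne_zero : zt ≠ 0 := zt_spec.ne_zero (by norm_num)

theorem zt_quad : zt ^ 2 + zt + 1 = 0 := by
  have h1 : (zt - 1) * (zt ^ 2 + zt + 1) = 0 := by linear_combination zt_cube
  exact (mul_eq_zero.1 h1).resolve_left (sub_ne_zero.2 zt_ne_one)

theorem zt_sq : zt ^ 2 = -1 - zt := by linear_combination zt_quad

theorem zt_inv : zt⁻¹ = zt ^ 2 :=
  inv_eq_of_mul_eq_one_right (by linear_combination zt_cube)

theorem norm_zt : ‖zt‖ = 1 := zt_spec.norm'_eq_one (by norm_num)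

theorem conj_zt : (starRingEnd ℂ) zt = zt ^ 2 := by
  have h1 : zt * (starRingEnd ℂ) zt = 1 := by
    rw [Complex.mul_conj, Complex.normSq_eq_norm_sq, norm_zt]
    norm_num
  have h2 : zt ^ 2 * (zt * (starRingEnd ℂ) zt) = zt ^ 2 := by rw [h1, mul_one]
  linear_combination h2 - (starRingEnd ℂ) zt * zt_cube

theorem zt_im_ne_zero : zt.im ≠ 0 := by
  intro h
  have h1 : zt = (zt.re : ℂ) := by
    apply Complex.ext
    · simp
    · simpa using h
  have h2 := zt_quad
  rw [h1] at h2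
  have h3 : zt.re ^ 2 + zt.re + 1 = 0 := by exact_mod_cast h2
  nlinarith [sq_nonneg (zt.re + 1 / 2)]

theorem mem_PP {x : ℂ} : x ∈ PP.lattice ↔ ∃ m n : ℤ, (m : ℂ) + n * zt = x := by
  rw [PeriodPair.mem_lattice]
  constructor
  · rintro ⟨m, n, h⟩
    exact ⟨m, n, by rw [← h]; show _ = (m : ℂ) * 1 + n * zt; ring⟩
  · rintro ⟨m, n, h⟩
    exact ⟨m, n, by rw [← h]; show (m : ℂ) * 1 + n * zt = _; ring⟩

theorem one_mem : (1 : ℂ) ∈ PP.lattice := mem_PP.2 ⟨1, 0, by simp⟩

theorem zt_mem : zt ∈ PP.lattice := mem_PP.2 ⟨0, 1, by simp⟩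

theorem mul_mem {x y : ℂ} (hx : x ∈ PP.lattice) (hy : y ∈ PP.lattice) : x * y ∈ PP.lattice := by
  obtain ⟨a, b, rfl⟩ := mem_PP.1 hx
  obtain ⟨c, d, rfl⟩ := mem_PP.1 hy
  refine mem_PP.2 ⟨a * c - b * d, a * d + b * c - b * d, ?_⟩
  push_cast
  linear_combination -((b : ℂ) * d * zt_quad)

theorem int_mem (n : ℤ) : (n : ℂ) ∈ PP.lattice := mem_PP.2 ⟨n, 0, by simp⟩

theorem nat_mem (n : ℕ) : (n : ℂ) ∈ PP.lattice := by exact_mod_cast int_mem n

theorem conj_mem {x : ℂ} (hx : x ∈ PP.lattice) : (starRingEnd ℂ) x ∈ PP.lattice := by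
  obtain ⟨a, b, rfl⟩ := mem_PP.1 hx
  refine mem_PP.2 ⟨a - b, -b, ?_⟩
  rw [map_add, map_mul, conj_zt, map_intCast, map_intCast, zt_sq]
  push_cast
  ring

theorem zt_mul_mem {x : ℂ} : zt * x ∈ PP.lattice ↔ x ∈ PP.lattice := by
  constructor
  · intro h
    have h1 := mul_mem (mul_mem zt_mem zt_mem) h
    have h2 : zt * zt * (zt * x) = x := by linear_combination x * zt_cube
    rwa [h2] at h1
  · exact mul_mem zt_mem

/-- The ring structure: multiplication by `zt` as a permutation of the lattice. -/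
def ztE : PP.lattice ≃ PP.lattice where
  toFun l := ⟨zt * l, zt_mul_mem.2 l.2⟩
  invFun l := ⟨zt ^ 2 * l, by rw [pow_two, mul_assoc]; exact zt_mul_mem.2 (zt_mul_mem.2 l.2)⟩
  left_inv l := by
    ext
    show zt ^ 2 * (zt * (l : ℂ)) = l
    linear_combination (l : ℂ) * zt_cube
  right_inv l := by
    ext
    show zt * (zt ^ 2 * (l : ℂ)) = l
    linear_combination (l : ℂ) * zt_cube

@[simp] theorem coe_ztE (l : PP.lattice) : ((ztE l : PP.lattice) : ℂ) = zt * l := rfl

theorem P_zt (z : ℂ) : PP.weierstrassP (zt * z) = zt * PP.weierstrassP z := by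
  simp only [PeriodPair.weierstrassP]
  rw [← ztE.tsum_eq, ← tsum_mul_left]
  congr with l
  have h : (zt ^ 2)⁻¹ = zt := inv_eq_of_mul_eq_one_right (by linear_combination zt_cube)
  rw [coe_ztE, ← mul_sub, mul_pow, mul_pow, one_div, one_div, mul_inv, mul_inv, h, one_div,
    one_div]
  ring

theorem Q_zt (z : ℂ) : PP.derivWeierstrassP (zt * z) = PP.derivWeierstrassP z := by
  simp only [PeriodPair.derivWeierstrassP]
  rw [← ztE.tsum_eq]
  congr 2 with l
  rw [coe_ztE, ← mul_sub, mul_pow, zt_cube, one_mul]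

/-- The lattice points. -/
theorem lp_mem (l : ℤ × ℤ) : lp l ∈ PP.lattice := mem_PP.2 ⟨l.1, l.2, rfl⟩

theorem mem_iff_lp {x : ℂ} : x ∈ PP.lattice ↔ ∃ l : ℤ × ℤ, x = lp l := by
  rw [mem_PP]
  constructor
  · rintro ⟨m, n, h⟩
    exact ⟨(m, n), h.symm⟩
  · rintro ⟨l, h⟩
    exact ⟨l.1, l.2, h.symm⟩

theorem coe_equivProd (l : ℤ × ℤ) : ((PP.latticeEquivProd.symm l : PP.lattice) : ℂ) = lp l := by
  rw [PP.latticeEquiv_symm_apply]
  show (l.1 : ℂ) * 1 + l.2 * zt = l.1 + l.2 * zt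
  rw [mul_one]

/-- The zeta function as a sum over the lattice. -/
theorem Zf_lat (z : ℂ) :
    Zf z = ∑' l : PP.lattice, ((z + l)⁻¹ - (l : ℂ)⁻¹ + z * ((l : ℂ) ^ 2)⁻¹) := by
  rw [Zf, ← PP.latticeEquivProd.symm.toEquiv.tsum_eq]
  congr with l
  show _ = (z + ((PP.latticeEquivProd.symm l : PP.lattice) : ℂ))⁻¹ -
    ((PP.latticeEquivProd.symm l : PP.lattice) : ℂ)⁻¹ +
    z * (((PP.latticeEquivProd.symm l : PP.lattice) : ℂ) ^ 2)⁻¹
  rw [coe_equivProd]

theorem Zf_zt (z : ℂ) : Zf (zt * z) = zt ^ 2 * Zf z := by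
  simp only [Zf_lat]
  rw [← ztE.tsum_eq, ← tsum_mul_left]
  congr with l
  have h : (zt ^ 2)⁻¹ = zt := inv_eq_of_mul_eq_one_right (by linear_combination zt_cube)
  rw [coe_ztE, ← mul_add, mul_inv, mul_inv, mul_pow, mul_inv, zt_inv, h]
  ring

theorem Zf_neg (z : ℂ) : Zf (-z) = - Zf z := by
  simp only [Zf_lat]
  rw [← (Equiv.neg PP.lattice).tsum_eq, ← tsum_neg]
  congr with l
  rw [Equiv.neg_apply, NegMemClass.coe_neg]
  have h1 : (-z + -(l : ℂ))⁻¹ = - (z + l)⁻¹ := by rw [← neg_add, inv_neg]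
  rw [h1, inv_neg, neg_sq]
  ring

theorem G4 : PP.G 4 = 0 := by
  have h1 : PP.G 4 = zt ^ 2 * PP.G 4 := by
    conv_lhs => rw [PeriodPair.G, ← ztE.tsum_eq]
    rw [PeriodPair.G, ← tsum_mul_left]
    congr with l
    rw [coe_ztE, mul_pow, mul_inv]
    have h : (zt ^ 4)⁻¹ = zt ^ 2 := inv_eq_of_mul_eq_one_right (by
      linear_combination (zt ^ 3 + 1) * zt_cube)
    rw [h]
  have h2 : (1 - zt ^ 2) * PP.G 4 = 0 := by linear_combination h1
  refine (mul_eq_zero.1 h2).resolve_left ?_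
  intro h
  apply zt_ne_one
  linear_combination zt_cube + zt * h

theorem g2 : PP.g₂ = 0 := by rw [PeriodPair.g₂, G4, mul_zero]

open Topology in
/-- If `g₂ = g₃ = 0`, then `℘'² = 4 ℘³`, which is impossible at a half period. -/
private theorem g23_aux (L : PeriodPair) (h2 : L.g₂ = 0) (h3 : L.g₃ = 0) : False := by
  set a : ℂ := L.ω₁ / 2 with ha
  have haL : a ∉ L.lattice := L.ω₁_div_two_notMem_lattice
  have hw : L.ω₁ ∈ L.lattice := L.ω₁_mem_lattice
  have hd0 : L.derivWeierstrassP a = 0 := by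
    have e1 := L.derivWeierstrassP_add_coe (-a) ⟨L.ω₁, hw⟩
    have e2 : -a + ((⟨L.ω₁, hw⟩ : L.lattice) : ℂ) = a := by
      show -a + L.ω₁ = a
      rw [ha]
      ring
    rw [e2, L.derivWeierstrassP_neg] at e1
    have e3 : 2 * L.derivWeierstrassP a = 0 := by linear_combination e1
    simpa using e3
  have hP : AnalyticAt ℂ L.weierstrassP a := L.analyticOnNhd_weierstrassP a haL
  have hQ : AnalyticAt ℂ L.derivWeierstrassP a := L.analyticOnNhd_derivWeierstrassP a haL
  have hrel : ∀ z ∉ L.lattice, L.derivWeierstrassP z ^ 2 = 4 * L.weierstrassP z ^ 3 := by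
    intro z hz
    rw [L.derivWeierstrassP_sq z hz, h2, h3]
    ring
  have hp0 : L.weierstrassP a = 0 := by
    have e1 := hrel a haL
    rw [hd0] at e1
    have e2 : L.weierstrassP a ^ 3 = 0 := by linear_combination -e1 / 4
    exact pow_eq_zero_iff (by norm_num) |>.1 e2
  have ho1 : analyticOrderAt L.derivWeierstrassP a + 1 = analyticOrderAt L.weierstrassP a := by
    have e1 := hP.analyticOrderAt_deriv_add_one
    rw [L.deriv_weierstrassP, hp0] at e1
    simpa using e1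
  have ho2 : 2 * analyticOrderAt L.derivWeierstrassP a
      = 3 * analyticOrderAt L.weierstrassP a := by
    have e1 : analyticOrderAt (L.derivWeierstrassP ^ 2) a
        = analyticOrderAt ((fun _ : ℂ => (4 : ℂ)) * L.weierstrassP ^ 3) a := by
      apply analyticOrderAt_congr
      filter_upwards [L.isClosed_lattice.isOpen_compl.mem_nhds haL] with z hz
      exact hrel z hz
    rw [analyticOrderAt_pow hQ, analyticOrderAt_mul analyticAt_const (hP.pow 3),
      analyticOrderAt_pow hP] at e1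
    have e2 : analyticOrderAt (fun _ : ℂ => (4 : ℂ)) a = 0 :=
      analyticAt_const.analyticOrderAt_eq_zero.2 (by norm_num)
    rw [e2, zero_add] at e1
    simpa [nsmul_eq_mul] using e1
  have ho3 : analyticOrderAt L.weierstrassP a = ⊤ := by
    rw [← ho1] at ho2 ⊢
    generalize analyticOrderAt L.derivWeierstrassP a = r at ho2
    cases r with
    | top => rfl
    | coe r =>
      exfalso
      have e3 : 2 * r = 3 * (r + 1) := by exact_mod_cast ho2
      omega
  have hm : MeromorphicOn L.weierstrassP Set.univ := fun x _ => L.meromorphic_weierstrassP x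
  have h0 : meromorphicOrderAt L.weierstrassP 0 ≠ ⊤ := by
    rw [L.order_weierstrassP 0 (zero_mem _)]
    decide
  have h5 := hm.meromorphicOrderAt_ne_top_of_isPreconnected (y := a) isPreconnected_univ
    (Set.mem_univ 0) (Set.mem_univ a) h0
  apply h5
  rw [meromorphicOrderAt_eq_top_iff]
  exact (analyticOrderAt_eq_top.1 ho3).filter_mono nhdsWithin_le_nhds

theorem g3_ne : PP.g₃ ≠ 0 := fun h => g23_aux PP g2 h

end S3

theorem Om_ne_zero : Om ≠ 0 := by
  intro h
  have h1 := Om_pow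
  rw [h] at h1
  apply S3.g3_ne
  linear_combination h1

namespace S3

/-- The differential equation of the Weierstrass function of `ℤ[zt]`. -/
theorem diff_eq {z : ℂ} (hz : z ∉ PP.lattice) :
    PP.derivWeierstrassP z ^ 2 = 4 * PP.weierstrassP z ^ 3 + Om ^ 6 := by
  rw [PP.derivWeierstrassP_sq z hz, g2, Om_pow]
  ring

/-- The coordinate `X` of the curve `Y² = 4 X³ + 1`. -/
def X (z : ℂ) : ℂ := PP.weierstrassP z / Om ^ 2

/-- The coordinate `Y` of the curve `Y² = 4 X³ + 1`. -/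
def Y (z : ℂ) : ℂ := PP.derivWeierstrassP z / Om ^ 3

theorem Y_sq {z : ℂ} (hz : z ∉ PP.lattice) : Y z ^ 2 = 4 * X z ^ 3 + 1 := by
  rw [Y, X, div_pow, diff_eq hz]
  have := Om_ne_zero
  field_simp

end S3

end

end Pool.Agent.Lib.MP_1a91b9_ntT
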