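import Pool.Agent.Lib.MP_1a91b9_ntT.S3.Quasi
import Pool.Agent.Lib.MP_1a91b9_ntT.S3.Liou

/-!
# Stream S3, file Local: expansions at the lattice points
-/

set_option autoImplicit false

namespace Pool.Agent.Lib.MP_1a91b9_ntT.S3

open Complex Filter Topology

noncomputable section

theorem prim6 : IsPrimitiveRoot (-zt) 6 := by
  have h3 := zt_cube
  have h2 := zt_quad
  refine IsPrimitiveRoot.mk_of_lt _ (by norm_num) (by linear_combination (zt ^ 3 + 1) * h3) ?_
  intro l hl0 hl6 h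
  have hm1 : zt ≠ -1 := by
    intro h1
    rw [h1] at h2
    norm_num at h2
  interval_cases l
  · apply hm1; linear_combination -h
  · apply zt_ne_one; linear_combination h3 - zt * h
  · have h4 : (2 : ℂ) = 0 := by linear_combination -h - h3
    norm_num at h4
  · apply zt_ne_one; linear_combination h - zt * h3
  · apply hm1; linear_combination - zt * h - (zt ^ 3 + 1) * h3

/-- A function analytic at `0` with the symmetry of order six vanishes to high order. -/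
theorem isBigO_of_sym {f : ℂ → ℂ} (hf : AnalyticAt ℂ f 0) {k : ℕ} (hk : k < 6)
    (hs : ∀ z, f (-zt * z) = (-zt) ^ k * f z) : f =O[𝓝 0] (fun z => z ^ k) := by
  by_cases h0 : ∀ᶠ z in 𝓝 0, f z = 0
  · exact (Asymptotics.isBigO_zero _ _).congr' (h0.mono fun z hz => hz.symm) EventuallyEq.rfl
  obtain ⟨n, g, hg, hg0, hfg⟩ := hf.exists_eventuallyEq_pow_smul_nonzero_iff.2 h0
  simp only [sub_zero, smul_eq_mul] at hfg
  have hnz : -zt ≠ 0 := neg_ne_zero.2 zt_ne_zero
  have ht : Tendsto (fun z : ℂ => -zt * z) (𝓝 0) (𝓝 0) := by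
    have h1 : ContinuousAt (fun z : ℂ => -zt * z) 0 := by fun_prop
    have h2 := h1.tendsto
    rwa [mul_zero] at h2
  have h1 : ∀ᶠ z in 𝓝[≠] (0 : ℂ), (-zt) ^ n * g (-zt * z) = (-zt) ^ k * g z := by
    filter_upwards [mem_nhdsWithin_of_mem_nhds hfg,
      mem_nhdsWithin_of_mem_nhds (ht.eventually hfg), self_mem_nhdsWithin] with z h2 h3 h4
    have h5 := hs z
    rw [h3, h2, mul_pow] at h5
    have h6 : z ^ n ≠ 0 := pow_ne_zero _ h4
    apply mul_left_cancel₀ h6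
    linear_combination h5
  have hgc : ContinuousAt g 0 := hg.continuousAt
  have h2 : (-zt) ^ n * g 0 = (-zt) ^ k * g 0 := by
    have e1 : Tendsto (fun z => (-zt) ^ n * g (-zt * z)) (𝓝[≠] 0) (𝓝 ((-zt) ^ n * g 0)) :=
      ((hgc.tendsto.comp ht).const_mul _).mono_left nhdsWithin_le_nhds
    have e2 : Tendsto (fun z => (-zt) ^ k * g z) (𝓝[≠] 0) (𝓝 ((-zt) ^ k * g 0)) :=
      (hgc.tendsto.const_mul _).mono_left nhdsWithin_le_nhds
    exact tendsto_nhds_unique_of_eventuallyEq e1 e2 h1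
  have h3 : (-zt) ^ n = (-zt) ^ k := mul_right_cancel₀ hg0 h2
  have h4 : k ≤ n := by
    by_contra h
    push Not at h
    exact absurd (prim6.pow_inj (h.trans hk) hk h3) h.ne
  have h5 : (fun z => z ^ k * (z ^ (n - k) * g z)) =O[𝓝 0] (fun z : ℂ => z ^ k * (1 : ℂ)) := by
    refine (Asymptotics.isBigO_refl _ _).mul ?_
    have e1 : ContinuousAt (fun z : ℂ => z ^ (n - k) * g z) 0 := by fun_prop
    exact e1.tendsto.isBigO_one ℂ
  simp only [mul_one] at h5
  refine h5.congr' ?_ EventuallyEq.rfl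
  filter_upwards [hfg] with z hz
  rw [hz, ← mul_assoc, ← pow_add, Nat.add_sub_cancel' h4]

theorem tendsto_of_isBigO {f : ℂ → ℂ} {k j : ℕ} (hf : f =O[𝓝 0] (fun z => z ^ k)) (hj : j < k) :
    Tendsto (fun z => f z * (z ^ j)⁻¹) (𝓝[≠] 0) (𝓝 0) := by
  have h1 : (fun z => f z * (z ^ j)⁻¹) =O[𝓝[≠] 0] (fun z => z ^ k * (z ^ j)⁻¹) :=
    (hf.mono nhdsWithin_le_nhds).mul (Asymptotics.isBigO_refl _ _)
  refine h1.trans_tendsto ?_
  have h2 : ContinuousAt (fun z : ℂ => z ^ (k - j)) 0 := by fun_prop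
  have h3 := h2.tendsto
  rw [zero_pow (by omega)] at h3
  refine (h3.mono_left (nhdsWithin_le_nhds (s := {0}ᶜ))).congr' ?_
  filter_upwards [self_mem_nhdsWithin] with z hz
  have hz0 : z ≠ 0 := hz
  rw [← div_eq_mul_inv, eq_div_iff (pow_ne_zero _ hz0), ← pow_add]
  congr 1
  omega

/-- The regular part of the Weierstrass function at `0`. -/
def Pr (z : ℂ) : ℂ := PP.weierstrassPExcept 0 z

/-- The regular part of the derivative of the Weierstrass function at `0`. -/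
def Qr (z : ℂ) : ℂ := PP.derivWeierstrassPExcept 0 z

theorem P_eq (z : ℂ) : PP.weierstrassP z = (z ^ 2)⁻¹ + Pr z := by
  have h := PP.weierstrassPExcept_add 0 z
  rw [← h, ZeroMemClass.coe_zero, Pr]
  simp
  ring

theorem Q_eq (z : ℂ) : PP.derivWeierstrassP z = -2 * (z ^ 3)⁻¹ + Qr z := by
  have h := PP.derivWeierstrassPExcept_sub 0 z
  rw [← h, ZeroMemClass.coe_zero, Qr, sub_zero, div_eq_mul_inv]
  ring

theorem Pr_sym (z : ℂ) : Pr (-zt * z) = (-zt) ^ 4 * Pr z := by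
  have h1 := P_eq (-zt * z)
  have h2 := P_eq z
  rw [neg_mul, PP.weierstrassP_neg, P_zt, h2] at h1
  have h : (zt ^ 2)⁻¹ = zt := inv_eq_of_mul_eq_one_right (by linear_combination zt_cube)
  rw [neg_sq, mul_pow, mul_inv, h] at h1
  rw [neg_mul]
  linear_combination -h1 - zt * Pr z * zt_cube

theorem Qr_sym (z : ℂ) : Qr (-zt * z) = (-zt) ^ 3 * Qr z := by
  have h1 := Q_eq (-zt * z)
  have h2 := Q_eq z
  rw [neg_mul, PP.derivWeierstrassP_neg, Q_zt, h2] at h1
  have h : ((-(zt * z)) ^ 3)⁻¹ = - (z ^ 3)⁻¹ := by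
    rw [← neg_mul, mul_pow, mul_inv, neg_pow, zt_cube]
    norm_num
  rw [h] at h1
  rw [neg_mul]
  linear_combination -h1 + Qr z * zt_cube

theorem ZE_sym (z : ℂ) : ZE 0 (-zt * z) = (-zt) ^ 5 * ZE 0 z := by
  have h1 := Zf_eq_ZE_zero (-zt * z)
  have h2 := Zf_eq_ZE_zero z
  rw [neg_mul, Zf_neg, Zf_zt, h2, inv_neg, mul_inv, zt_inv] at h1
  rw [neg_mul]
  linear_combination -h1 + ZE 0 z * zt ^ 2 * zt_cube

theorem analyticAt_ZE : AnalyticAt ℂ (ZE 0) 0 :=
  (differentiableOn_ZE 0).analyticAt ((isOpen_set 0).mem_nhds (fun h => h.2 rfl))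

theorem Pr_isBigO : Pr =O[𝓝 0] (fun z => z ^ 4) :=
  isBigO_of_sym (PP.analyticAt_weierstrassPExcept 0) (by norm_num) Pr_sym

theorem Qr_isBigO : Qr =O[𝓝 0] (fun z => z ^ 3) :=
  isBigO_of_sym (PP.analyticAt_derivWeierstrassPExcept 0) (by norm_num) Qr_sym

theorem ZE_isBigO : ZE 0 =O[𝓝 0] (fun z => z ^ 5) :=
  isBigO_of_sym analyticAt_ZE (by norm_num) ZE_sym

theorem tendsto_Pr {j : ℕ} (hj : j < 4) :
    Tendsto (fun z => Pr z * (z ^ j)⁻¹) (𝓝[≠] 0) (𝓝 0) := tendsto_of_isBigO Pr_isBigO hj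

theorem tendsto_Qr {j : ℕ} (hj : j < 3) :
    Tendsto (fun z => Qr z * (z ^ j)⁻¹) (𝓝[≠] 0) (𝓝 0) := tendsto_of_isBigO Qr_isBigO hj

theorem tendsto_ZE {j : ℕ} (hj : j < 5) :
    Tendsto (fun z => ZE 0 z * (z ^ j)⁻¹) (𝓝[≠] 0) (𝓝 0) := tendsto_of_isBigO ZE_isBigO hj

/-- Translation of a punctured limit. -/
theorem tendsto_translate {F : ℂ → ℂ} {b : Filter ℂ} {l : ℂ}
    (h : Tendsto F (𝓝[≠] 0) b) : Tendsto (fun z => F (z - l)) (𝓝[≠] l) b := by
  refine h.comp ?_
  refine tendsto_nhdsWithin_iff.2 ⟨?_, ?_⟩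
  · have h1 : ContinuousAt (fun z : ℂ => z - l) l := by fun_prop
    have h2 := h1.tendsto
    rw [sub_self] at h2
    exact h2.mono_left nhdsWithin_le_nhds
  · filter_upwards [self_mem_nhdsWithin] with z hz
    exact sub_ne_zero.2 hz

theorem tendsto_at_lattice {F : ℂ → ℂ} (hp : ∀ l ∈ PP.lattice, ∀ z, F (z + l) = F z)
    {b : Filter ℂ} (h : Tendsto F (𝓝[≠] 0) b) {l : ℂ} (hl : l ∈ PP.lattice) :
    Tendsto F (𝓝[≠] l) b := by
  refine (tendsto_translate (l := l) h).congr fun z => ?_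
  have := hp l hl (z - l)
  rw [sub_add_cancel] at this
  exact this.symm

theorem tendsto_mul_zero {F : ℂ → ℂ} {s a : ℂ} (h : Tendsto F (𝓝[≠] s) (𝓝 a)) :
    Tendsto (fun z => (z - s) * F z) (𝓝[≠] s) (𝓝 0) := by
  have h1 : ContinuousAt (fun z : ℂ => z - s) s := by fun_prop
  have h2 := h1.tendsto
  rw [sub_self] at h2
  have h3 := (h2.mono_left (nhdsWithin_le_nhds (s := {s}ᶜ))).mul h
  rwa [zero_mul] at h3

/-- The division points of the lattice are isolated. -/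
theorem eventually_mul_notMem {α : ℂ} (hα : α ≠ 0) (z : ℂ) :
    ∀ᶠ w in 𝓝[≠] z, α * w ∉ PP.lattice := by
  have h1 : Tendsto (fun w : ℂ => α * w) (𝓝[≠] z) (𝓝[≠] (α * z)) := by
    refine tendsto_nhdsWithin_iff.2 ⟨?_, ?_⟩
    · have h2 : ContinuousAt (fun w : ℂ => α * w) z := by fun_prop
      exact h2.tendsto.mono_left nhdsWithin_le_nhds
    · filter_upwards [self_mem_nhdsWithin] with w hw h
      exact hw (mul_left_cancel₀ hα h)
  exact h1.eventually (eventually_notMem (α * z))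

theorem eventually_add_notMem (v z : ℂ) : ∀ᶠ w in 𝓝[≠] z, w + v ∉ PP.lattice := by
  have h1 : Tendsto (fun w : ℂ => w + v) (𝓝[≠] z) (𝓝[≠] (z + v)) := by
    refine tendsto_nhdsWithin_iff.2 ⟨?_, ?_⟩
    · have h2 : ContinuousAt (fun w : ℂ => w + v) z := by fun_prop
      exact h2.tendsto.mono_left nhdsWithin_le_nhds
    · filter_upwards [self_mem_nhdsWithin] with w hw h
      exact hw (add_right_cancel h)
  exact h1.eventually (eventually_notMem (z + v))

theorem hasDerivAt_P {z : ℂ} (hz : z ∉ PP.lattice) :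
    HasDerivAt PP.weierstrassP (PP.derivWeierstrassP z) z := by
  have h1 : DifferentiableAt ℂ PP.weierstrassP z :=
    (PP.analyticOnNhd_weierstrassP z hz).differentiableAt
  have h2 := h1.hasDerivAt
  rwa [PP.deriv_weierstrassP] at h2

theorem continuousAt_P {z : ℂ} (hz : z ∉ PP.lattice) : ContinuousAt PP.weierstrassP z :=
  (hasDerivAt_P hz).continuousAt

theorem differentiableAt_Q {z : ℂ} (hz : z ∉ PP.lattice) :
    DifferentiableAt ℂ PP.derivWeierstrassP z :=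
  (PP.analyticOnNhd_derivWeierstrassP z hz).differentiableAt

theorem P_add {l : ℂ} (hl : l ∈ PP.lattice) (z : ℂ) :
    PP.weierstrassP (z + l) = PP.weierstrassP z := PP.weierstrassP_add_coe z ⟨l, hl⟩

theorem Q_add {l : ℂ} (hl : l ∈ PP.lattice) (z : ℂ) :
    PP.derivWeierstrassP (z + l) = PP.derivWeierstrassP z := PP.derivWeierstrassP_add_coe z ⟨l, hl⟩

/-- The simple pole of `E1` at a lattice point. -/
theorem tendsto_E1 {l : ℂ} (hl : l ∈ PP.lattice) :
    Tendsto (fun z => (z - l) * E1 z) (𝓝[≠] l) (𝓝 1) := by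
  have h1 : Tendsto (fun z : ℂ => 1 + (z * ZE 0 z - z * (etaE * (starRingEnd ℂ) z))) (𝓝 0)
      (𝓝 1) := by
    have h2 : ContinuousAt (fun z : ℂ => 1 + (z * ZE 0 z - z * (etaE * (starRingEnd ℂ) z))) 0 := by
      refine continuousAt_const.add ((continuousAt_id.mul analyticAt_ZE.continuousAt).sub
        (continuousAt_id.mul (continuousAt_const.mul Complex.continuous_conj.continuousAt)))
    have h3 := h2.tendsto
    simp only [zero_mul, sub_zero, add_zero] at h3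
    exact h3
  have h4 := tendsto_translate (l := l) (h1.mono_left (nhdsWithin_le_nhds (s := {0}ᶜ)))
  refine h4.congr' ?_
  filter_upwards [self_mem_nhdsWithin] with z hz
  have hz0 : z - l ≠ 0 := sub_ne_zero.2 hz
  rw [E1_eq_near hl z, mul_sub, mul_add, mul_inv_cancel₀ hz0]
  ring

end

end Pool.Agent.Lib.MP_1a91b9_ntT.S3
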