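import Pool.Agent.Lib.MP_1a91b9_ntT.S3.Inj

/-!
# Stream S3, file Val: `E1` at odd torsion points is integral at `2`
-/

set_option autoImplicit false

namespace Pool.Agent.Lib.MP_1a91b9_ntT.S3

open Complex

noncomputable section

section General

variable {A : ValuationSubring ℂ}

theorem int_mem_A (n : ℤ) : (n : ℂ) ∈ A := by
  have := intCast_mem A.toSubring n
  exact this

theorem two_mem : (2 : ℂ) ∈ A := by
  have h := int_mem_A (A := A) 2
  exact_mod_cast h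

theorem v_int_le (n : ℤ) : A.valuation (n : ℂ) ≤ 1 := (A.valuation_le_one_iff _).2 (int_mem_A n)

theorem v_two_lt (hA : (2 : ℂ)⁻¹ ∉ A) : A.valuation (2 : ℂ) < 1 := by
  by_contra h
  push Not at h
  apply hA
  rw [← A.valuation_le_one_iff, map_inv₀]
  exact inv_le_one_of_one_le₀ h

theorem v_odd (hA : (2 : ℂ)⁻¹ ∉ A) {n : ℤ} (hn : Odd n) : A.valuation (n : ℂ) = 1 := by
  refine le_antisymm (v_int_le n) ?_
  by_contra h
  push Not at h
  obtain ⟨k, rfl⟩ := hn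
  have h1 : A.valuation ((2 : ℂ) * k) < 1 := by
    rw [map_mul]
    exact mul_lt_one_of_lt_of_le (v_two_lt hA) (v_int_le k)
  have h2 : A.valuation ((((2 * k + 1 : ℤ) : ℂ)) - (2 : ℂ) * k) < 1 :=
    (A.valuation.map_sub_lt h h1)
  have h3 : (((2 * k + 1 : ℤ) : ℂ)) - (2 : ℂ) * k = 1 := by push_cast; ring
  rw [h3, map_one] at h2
  exact lt_irrefl _ h2

theorem odd_inv_mem (hA : (2 : ℂ)⁻¹ ∉ A) {n : ℤ} (hn : Odd n) : ((n : ℂ))⁻¹ ∈ A := by
  rw [← A.valuation_le_one_iff, map_inv₀, v_odd hA hn, inv_one]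

theorem mem_of_odd_mul (hA : (2 : ℂ)⁻¹ ∉ A) {n : ℤ} (hn : Odd n) {x : ℂ} (h : (n : ℂ) * x ∈ A) :
    x ∈ A := by
  rw [← A.valuation_le_one_iff] at h ⊢
  rwa [map_mul, v_odd hA hn, one_mul] at h

theorem mem_of_isIntegral {x : ℂ} (hx : IsIntegral ℤ x) : x ∈ A := by
  have h1 : IsIntegral A x := hx.tower_top
  obtain ⟨y, hy⟩ := (IsIntegrallyClosed.isIntegral_iff (R := A) (K := ℂ)).1 h1
  rw [← hy]
  exact y.2

end General

/-- There is a valuation ring of `ℂ` above `2`. -/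
theorem exists_A : ∃ A : ValuationSubring ℂ, (2 : ℂ)⁻¹ ∉ A := by
  have h2 : (2 : ℂ) ∈ (⊥ : Subring ℂ) := by
    have := intCast_mem (⊥ : Subring ℂ) 2
    exact_mod_cast this
  have hI : Ideal.span {(⟨2, h2⟩ : (⊥ : Subring ℂ))} ≠ ⊤ := by
    intro h
    rw [Ideal.span_singleton_eq_top] at h
    obtain ⟨⟨b, hb⟩, e⟩ := isUnit_iff_exists_inv.mp h
    obtain ⟨n, rfl⟩ := Subring.mem_bot.1 hb
    have e2 : (2 : ℂ) * n = 1 := congrArg Subtype.val e
    have e3 : (2 : ℤ) * n = 1 := by exact_mod_cast e2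
    omega
  obtain ⟨B, _, hB⟩ := Ideal.image_subset_nonunits_valuationSubring _ hI
  refine ⟨B, ?_⟩
  have h3 : (2 : ℂ) ∈ B.nonunits := hB ⟨⟨2, h2⟩, Ideal.mem_span_singleton_self _, rfl⟩
  rcases B.mem_nonunits_iff_or.1 h3 with h | h
  · norm_num at h
  · exact h

section Torsion

theorem X_two_mul {z : ℂ} (hz : 2 * z ∉ PP.lattice) :
    X (2 * z) * (4 * X z ^ 3 + 1) = X z ^ 4 - 2 * X z := by
  have h := P_two_mul hz
  have hO := Om_ne_zero
  rw [X, X]
  field_simp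
  linear_combination h

theorem X_add {l : ℂ} (hl : l ∈ PP.lattice) (z : ℂ) : X (z + l) = X z := by
  rw [X, X, P_add hl]

theorem mul_int_mem {z : ℂ} (hz : z ∈ PP.lattice) (n : ℤ) : (n : ℂ) * z ∈ PP.lattice :=
  mul_mem (int_mem n) hz

theorem notMem_mul {m : ℕ} {z : ℂ} (hmz : (m : ℂ) * z ∈ PP.lattice)
    (hz : z ∉ PP.lattice) {n : ℕ} (hn : Nat.Coprime m n) : (n : ℂ) * z ∉ PP.lattice := by
  intro h
  apply hz
  have hb := Nat.gcd_eq_gcd_ab m n
  rw [hn] at hb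
  have h1 := add_mem (mul_int_mem hmz (m.gcdA n)) (mul_int_mem h (m.gcdB n))
  have h2 : ((m.gcdA n : ℤ) : ℂ) * ((m : ℂ) * z) + ((m.gcdB n : ℤ) : ℂ) * ((n : ℂ) * z) = z := by
    have hb2 : (1 : ℂ) = (m : ℂ) * (m.gcdA n : ℤ) + n * (m.gcdB n : ℤ) := by exact_mod_cast hb
    linear_combination (-z) * hb2
  rwa [h2] at h1

theorem pow_two_notMem {m : ℕ} (hm : Odd m) {z : ℂ} (hmz : (m : ℂ) * z ∈ PP.lattice)
    (hz : z ∉ PP.lattice) (k : ℕ) : (2 : ℂ) ^ k * z ∉ PP.lattice := by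
  have h := notMem_mul hmz hz (n := 2 ^ k)
    (Nat.Coprime.pow_right k (Nat.coprime_two_right.2 hm))
  exact_mod_cast h

/-- Odd torsion points are periodic under doubling. -/
theorem exists_pow {m : ℕ} (hm : Odd m) {z : ℂ} (hmz : (m : ℂ) * z ∈ PP.lattice) :
    ∃ k : ℕ, 0 < k ∧ ∃ l ∈ PP.lattice, (2 : ℂ) ^ k * z = z + l := by
  refine ⟨m.totient, Nat.totient_pos.2 hm.pos, ?_⟩
  have h1 : 2 ^ m.totient ≡ 1 [MOD m] :=
    Nat.ModEq.pow_totient (Nat.coprime_two_left.2 hm)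
  obtain ⟨c, hc⟩ := (Nat.modEq_iff_dvd.1 h1.symm)
  refine ⟨(c : ℂ) * ((m : ℂ) * z), mul_int_mem hmz c, ?_⟩
  have h2 : (2 : ℂ) ^ m.totient - 1 = (m : ℂ) * c := by exact_mod_cast hc
  linear_combination z * h2

variable {A : ValuationSubring ℂ}

theorem v_step (hA : (2 : ℂ)⁻¹ ∉ A) {z : ℂ} (hz : 2 * z ∉ PP.lattice)
    (h : 1 < A.valuation (X z)) : A.valuation (X z) < A.valuation (X (2 * z)) := by
  set v := A.valuation with hv
  set x := X z with hx
  have hx0 : 0 < v x := lt_trans zero_lt_one h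
  have h2 : v (2 : ℂ) < 1 := v_two_lt hA
  have e := congrArg v (X_two_mul hz)
  rw [map_mul] at e
  have e1 : v (x ^ 4 - 2 * x) = v x ^ 4 := by
    rw [Valuation.map_sub_eq_of_lt_left, map_pow]
    rw [map_mul, map_pow]
    calc v 2 * v x ≤ 1 * v x := mul_le_mul_left (le_of_lt h2) _
      _ = v x := one_mul _
      _ = v x ^ 1 := (pow_one _).symm
      _ < v x ^ 4 := pow_lt_pow_right₀ h (by norm_num)
  have e2 : v (4 * x ^ 3 + 1) < v x ^ 3 := by
    refine lt_of_le_of_lt (v.map_add _ _) (max_lt ?_ ?_)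
    · rw [map_mul, map_pow]
      have h4 : v (4 : ℂ) < 1 := by
        have e4 : (4 : ℂ) = 2 * 2 := by norm_num
        rw [e4, map_mul]
        exact mul_lt_one_of_lt_of_le h2 h2.le
      calc v 4 * v x ^ 3 < 1 * v x ^ 3 := by
            exact mul_lt_mul_of_pos_right h4 (pow_pos hx0 3)
        _ = v x ^ 3 := one_mul _
    · rw [map_one]
      exact one_lt_pow₀ h (by norm_num)
  by_contra hc
  push Not at hc
  rw [e1] at e
  have h5 : v (X (2 * z)) * v (4 * x ^ 3 + 1) < v x ^ 4 := by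
    calc v (X (2 * z)) * v (4 * x ^ 3 + 1) ≤ v x * v (4 * x ^ 3 + 1) := mul_le_mul_left hc _
      _ < v x * v x ^ 3 := by exact mul_lt_mul_of_pos_left e2 hx0
      _ = v x ^ 4 := by rw [← pow_succ']
  rw [e] at h5
  exact lt_irrefl _ h5

/-- The abscissa of an odd torsion point is integral at `2`. -/
theorem X_mem (hA : (2 : ℂ)⁻¹ ∉ A) {m : ℕ} (hm : Odd m) {z : ℂ} (hmz : (m : ℂ) * z ∈ PP.lattice)
    (hz : z ∉ PP.lattice) : X z ∈ A := by
  rw [← A.valuation_le_one_iff]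
  by_contra hc
  push Not at hc
  obtain ⟨k, hk, l, hl, he⟩ := exists_pow hm hmz
  have h1 : ∀ j : ℕ, A.valuation (X z) ≤ A.valuation (X ((2 : ℂ) ^ j * z)) ∧
      (0 < j → A.valuation (X z) < A.valuation (X ((2 : ℂ) ^ j * z))) := by
    intro j
    induction j with
    | zero =>
      refine ⟨?_, fun h => absurd h (lt_irrefl _)⟩
      rw [pow_zero, one_mul]
    | succ j ih =>
      have h2 : (2 : ℂ) * ((2 : ℂ) ^ j * z) ∉ PP.lattice := by
        rw [← mul_assoc, ← pow_succ']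
        exact pow_two_notMem hm hmz hz (j + 1)
      have h3 := v_step hA h2 (lt_of_lt_of_le hc ih.1)
      rw [← mul_assoc, ← pow_succ'] at h3
      have h4 := lt_of_le_of_lt ih.1 h3
      exact ⟨h4.le, fun _ => h4⟩
  have h2 := (h1 k).2 hk
  rw [he, X_add hl] at h2
  exact lt_irrefl _ h2

theorem v_Y (hA : (2 : ℂ)⁻¹ ∉ A) {z : ℂ} (hz : z ∉ PP.lattice) (hX : X z ∈ A) :
    A.valuation (Y z) = 1 := by
  have h2 : A.valuation (2 : ℂ) < 1 := v_two_lt hA
  have hX' := (A.valuation_le_one_iff _).2 hX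
  have h1 : A.valuation (4 * X z ^ 3) < 1 := by
    have e4 : (4 : ℂ) * X z ^ 3 = 2 * (2 * X z ^ 3) := by ring
    rw [e4, map_mul]
    refine mul_lt_one_of_lt_of_le h2 ?_
    rw [map_mul, map_pow]
    exact mul_le_one' h2.le (pow_le_one' hX' 3)
  have h3 : A.valuation (Y z ^ 2) = 1 := by
    rw [Y_sq hz, Valuation.map_add_eq_of_lt_right, map_one]
    rwa [map_one]
  rw [map_pow] at h3
  rcases lt_trichotomy (A.valuation (Y z)) 1 with h | h | h
  · have h4 : A.valuation (Y z) ^ 2 < 1 := by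
      rw [pow_two]
      exact mul_lt_one_of_lt_of_le h h.le
    rw [h3] at h4
    exact absurd h4 (lt_irrefl _)
  · exact h
  · have h4 : 1 < A.valuation (Y z) ^ 2 := one_lt_pow₀ h (by norm_num)
    rw [h3] at h4
    exact absurd h4 (lt_irrefl _)

theorem slope_eq {z : ℂ} (hz : 2 * z ∉ PP.lattice) :
    (E1 (2 * z) / Om - 2 * (E1 z / Om)) * Y z = 3 * X z ^ 2 := by
  have h := dup hz
  have hO := Om_ne_zero
  rw [X, Y]
  field_simp
  linear_combination h

theorem slope_mem (hA : (2 : ℂ)⁻¹ ∉ A) {z : ℂ} (hz : 2 * z ∉ PP.lattice) (hX : X z ∈ A) :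
    E1 (2 * z) / Om - 2 * (E1 z / Om) ∈ A := by
  have h1 := v_Y hA (notMem_of_two_mul hz) hX
  have h2 := congrArg A.valuation (slope_eq hz)
  rw [map_mul, h1, mul_one] at h2
  rw [← A.valuation_le_one_iff, h2, A.valuation_le_one_iff]
  have h3 := int_mem_A (A := A) 3
  have h4 : (3 : ℂ) ∈ A := by exact_mod_cast h3
  exact A.mul_mem _ _ h4 (pow_mem hX 2)

/-- MAIN THEOREM of S3: the values of `E1` at the odd torsion points, divided by the period, are
integral at `2`. -/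
theorem E1_mem (hA : (2 : ℂ)⁻¹ ∉ A) {m : ℕ} (hm : Odd m) {z : ℂ}
    (hmz : (m : ℂ) * z ∈ PP.lattice) : E1 z / Om ∈ A := by
  by_cases hz : z ∈ PP.lattice
  · rw [E1_coe hz, zero_div]
    exact A.zero_mem
  obtain ⟨k, hk, l, hl, he⟩ := exists_pow hm hmz
  have h1 : ∀ j : ℕ, E1 ((2 : ℂ) ^ j * z) / Om - 2 ^ j * (E1 z / Om) ∈ A := by
    intro j
    induction j with
    | zero =>
      rw [pow_zero, one_mul, one_mul, sub_self]
      exact A.zero_mem
    | succ j ih =>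
      have h2 : (2 : ℂ) * ((2 : ℂ) ^ j * z) ∉ PP.lattice := by
        rw [← mul_assoc, ← pow_succ']
        exact pow_two_notMem hm hmz hz (j + 1)
      have h3 : X ((2 : ℂ) ^ j * z) ∈ A := by
        refine X_mem hA hm ?_ (notMem_of_two_mul h2)
        have := mul_int_mem hmz (2 ^ j)
        have e : ((2 ^ j : ℤ) : ℂ) * ((m : ℂ) * z) = (m : ℂ) * ((2 : ℂ) ^ j * z) := by
          push_cast
          ring
        rwa [e] at this
      have h4 := slope_mem hA h2 h3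
      have h5 := add_mem h4 (A.mul_mem _ _ two_mem ih)
      have e : E1 (2 * ((2 : ℂ) ^ j * z)) / Om - 2 * (E1 ((2 : ℂ) ^ j * z) / Om) +
          2 * (E1 ((2 : ℂ) ^ j * z) / Om - 2 ^ j * (E1 z / Om)) =
          E1 ((2 : ℂ) ^ (j + 1) * z) / Om - 2 ^ (j + 1) * (E1 z / Om) := by
        rw [← mul_assoc, ← pow_succ']
        ring
      rwa [e] at h5
  have h2 := h1 k
  rw [he, E1_add hl] at h2
  have hodd : Odd ((1 : ℤ) - 2 ^ k) := by
    refine Odd.sub_even odd_one ?_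
    exact (even_two.pow_of_ne_zero hk.ne')
  refine mem_of_odd_mul hA hodd ?_
  have e : (((1 : ℤ) - 2 ^ k : ℤ) : ℂ) * (E1 z / Om) = E1 z / Om - 2 ^ k * (E1 z / Om) := by
    push_cast
    ring
  rwa [e]

end Torsion

end

end Pool.Agent.Lib.MP_1a91b9_ntT.S3
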